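import Pool.Agent.W97.V20.Defs

/-!
Statements of the independent parts.
-/

set_option autoImplicit false

open UpperHalfPlane MatrixGroups CongruenceSubgroup Filter Topology MeasureTheory

namespace Pool.Agent.W97.V20

open Pool.Agent.W97.MT (prim IsGloballyMinimal affCount ap)

/-- `η(w)² η(5w)²` -/
noncomputable def gg (w : ℂ) : ℂ := ModularForm.eta w ^ 2 * ModularForm.eta (5 * w) ^ 2

/-- FORM: `η(2z)² η(10z)²` is a cusp form of level `20` -/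
def S_FORM : Prop := ∃ f : CuspForm (Gamma0 20 : Subgroup (GL (Fin 2) ℝ)) 2,
  ∀ z : ℍ, f z = gg (2 * z)

/-- DIM: `dim S_2(Γ_0(20)) ≤ 1` -/
def S_DIM : Prop := ∀ g : CuspForm (Gamma0 20 : Subgroup (GL (Fin 2) ℝ)) 2,
  ∃ c : ℂ, ∀ z : ℍ, g z = c * gg (2 * z)

/-- CP5: the constant principle on `X_0(5)` -/
def S_CP5 : Prop := ∀ g : ℂ → ℂ, DifferentiableOn ℂ g {z : ℂ | 0 < z.im} →
  (∀ a b c d : ℤ, a * d - b * (5 * c) = 1 → ∀ z : ℂ, 0 < z.im →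
    g ((a * z + b) / (5 * c * z + d)) = g z) →
  (∃ B T : ℝ, ∀ z : ℂ, T < z.im → ‖g z‖ ≤ B) →
  (∃ B T : ℝ, 0 ≤ T ∧ ∀ z : ℂ, T < z.im → ‖g (-1 / (5 * z))‖ ≤ B) →
  ∃ c : ℂ, ∀ z : ℂ, 0 < z.im → g z = c

/-- HASSE: the coefficient of `q^p` modulo `p` -/
def S_HASSE : Prop := ∀ (p : ℕ) [Fact p.Prime], p ≠ 2 → ∀ φ ξ σ : PowerSeries (ZMod p),
  PowerSeries.constantCoeff ξ = 1 → PowerSeries.constantCoeff σ = -2 →
  PowerSeries.X * PowerSeries.derivative (ZMod p) ξ - 2 * ξ = φ * σ →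
  σ ^ 2 = 4 * ξ ^ 3 - 44 * PowerSeries.X ^ 2 * ξ ^ 2 - 4 * PowerSeries.X ^ 4 * ξ →
  PowerSeries.coeff (p - 1) φ = (ap E4 p : ZMod p)

/-- SIX: six divides the number of points -/
def S_SIX : Prop := ∀ (p : ℕ), p.Prime → p ≠ 2 → p ≠ 3 → p ≠ 5 → 6 ∣ affCount E4 p + 1

/-- MIN -/
def S_MIN : Prop := IsGloballyMinimal E13 ∧ E13.c₄ = 335296 ∧ E13.Δ = 2000 * 13 ^ 6 ∧
  IsSplit E13 5 ∧ affCount E4 2 = 2 ∧ affCount E4 3 = 5 ∧ affCount E4 5 = 6 ∧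
  (∀ p : ℕ, p.Prime → affCount E4 p ≤ 2 * p)

/-- TWIST: the point counts of the quadratic twist -/
def S_TWIST : Prop := ∀ p : ℕ, p.Prime → ap E13 p = jacobiSym p 13 * ap E4 p

/-- RANK: the rank is positive -/
def S_RANK : Prop := 1 ≤ Module.rank ℤ (E13.map (Int.castRingHom ℚ)).toAffine.Point

/-- GRP: the square of the augmentation ideal -/
def S_GRP : Prop := ∀ R : Subring ℚ, (∀ x ∈ R, ∃ n : ℤ, x = n) →
  ∀ θ : MonoidAlgebra R (GM 5), θ ∈ aug R (GM 5) ^ 2 →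
    ∃ m : ℤ, ((θ.coeff 1 : R) : ℚ) = 2 * m

/-- MULT: the Hecke relations determine the coefficients -/
def S_MULT : Prop := ∀ (W : WeierstrassCurve ℤ) (A : ℕ → ℤ), A 1 = 1 →
  (∀ p : ℕ, p.Prime → A p = ap W p) →
  (∀ p : ℕ, p.Prime → ∀ n : ℕ, 0 < n →
    A (p * n) + (if (p : ℤ) ∣ W.Δ then 0 else p) * (if p ∣ n then A (n / p) else 0) = A p * A n) →
  ∀ n : ℕ, 0 < n → an W n = A n

/-- OMEGA: the real period as an integral over the quartic -/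
def S_OMEGA : Prop := IntegrableOn (fun s : ℝ => (Real.sqrt (s ^ 4 + 22 * s ^ 2 + 125))⁻¹)
    (Set.Ioi 0) ∧
  Omega E13 = 2 / Real.sqrt 13 *
    ∫ s in Set.Ioi (0 : ℝ), (Real.sqrt (s ^ 4 + 22 * s ^ 2 + 125))⁻¹

/-- SUBST: the substitution along the imaginary axis -/
def S_SUBST : Prop := ∀ σ γ : ℝ → ℝ, (∀ u : ℝ, 0 < u → 0 < σ u) → (∀ u : ℝ, 0 < u → 0 < γ u) →
  (∀ u : ℝ, 0 < u →
    HasDerivAt σ (γ u * Real.sqrt (σ u ^ 4 + 22 * σ u ^ 2 + 125)) u) →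
  Tendsto σ (𝓝[>] 0) (𝓝 0) → Tendsto σ atTop atTop →
  ∫ s in Set.Ioi (0 : ℝ), (Real.sqrt (s ^ 4 + 22 * s ^ 2 + 125))⁻¹ =
    ∫ u in Set.Ioi (0 : ℝ), γ u

/-- GAUSS: the twist by the quadratic character modulo `13` -/
def S_GAUSS : Prop := ∃ τ : ℝ, τ ^ 2 = 13 ∧ ∀ (A : ℕ → ℤ) (f : ℂ → ℂ),
  (∀ z : ℂ, 0 < z.im → HasSum (fun n : ℕ => (A n : ℂ) *
    Complex.exp (2 * Real.pi * Complex.I * n * z)) (f z)) → ∀ z : ℂ, 0 < z.im →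
  HasSum (fun n : ℕ => ((jacobiSym n 13 * A n : ℤ) : ℂ) *
    Complex.exp (2 * Real.pi * Complex.I * n * z))
    ((∑ u ∈ Finset.range 13, (jacobiSym u 13 : ℂ) * f (z + u / 13)) / τ)

/-- a relation closed under the transformations `T`, `ε_1`, `ε_2`, `U` of `Γ_0(5)` -/
structure Closed (P : ℚ → ℤ → Prop) : Prop where
  zero : P 0 1
  p2 : P (2 / 5) 1
  m2 : P (-2 / 5) 1
  p1 : P (1 / 5) 2
  m1 : P (-1 / 5) 2
  T : ∀ r n, P r n → P (r + 1) (-n)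
  Ti : ∀ r n, P r n → P (r - 1) (-n)
  e1 : ∀ r n, 5 * r - 2 ≠ 0 → P r n → P ((2 * r - 1) / (5 * r - 2)) (1 - n)
  e2 : ∀ r n, 5 * r + 2 ≠ 0 → P r n → P ((-2 * r - 1) / (5 * r + 2)) (1 - n)
  U : ∀ r n, -5 * r + 1 ≠ 0 → P r n → P (r / (-5 * r + 1)) (2 - n)
  Ui : ∀ r n, 5 * r + 1 ≠ 0 → P r n → P (r / (5 * r + 1)) (2 - n)

/-- DESC: the Euclidean algorithm: every rational number is reached from `0, ±1/5, ±2/5`. -/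
def S_DESC : Prop := ∀ P : ℚ → ℤ → Prop, Closed P → ∀ r : ℚ, ∃ n : ℤ, P r n ∧
    (¬ (5 : ℤ) ∣ r.den → (Odd n ↔ jacobiSym r.den 5 = 1)) ∧
    (¬ (2 : ℤ) ∣ r.den → 2 ∣ r.num → (3 : ℤ) ∣ n - 1)

/-- VALS: the values needed for the curve -/
def S_VALS : Prop := ∀ P : ℚ → ℤ → Prop, Closed P → ∃ v w : ℕ → ℤ,
  (∀ u ∈ Finset.Icc (1 : ℕ) 12, P (2 / 5 + 2 * (u : ℚ) / 13) (v u)) ∧
  (∀ u ∈ Finset.Icc (1 : ℕ) 12, P (4 / 5 + 2 * (u : ℚ) / 13) (w u)) ∧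
  ∑ u ∈ Finset.Icc (1 : ℕ) 12, jacobiSym (u : ℤ) 13 * v u = 18 ∧
  ∑ u ∈ Finset.Icc (1 : ℕ) 12, jacobiSym (u : ℤ) 13 * w u = -18

end Pool.Agent.W97.V20
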