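import Pool.Agent.W97.V20.Gg
import Pool.Agent.W598.MT.QEXP

/-!
The integrals of `η(w)² η(5w)²` from the rational points.
-/

set_option autoImplicit false

open Filter Topology MeasureTheory Set

namespace Pool.Agent.W97.V20

open Pool.Agent.W97.TW
open Pool.Agent.W97.MT (qq qq_ne norm_qq norm_qq_lt iI iI_pos iI_eventually line_im line_re
  tendsto_qq)

/-- `x` is a cusp with value `L` of the primitive -/
def Lim (x : ℚ) (L : ℂ) : Prop := ∃ (a b c d : ℤ) (ε : ℂ), Mv a b c d ε ∧ c ≠ 0 ∧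
  (a : ℚ) = x * c ∧ ∀ w : ℂ, 0 < w.im → F ((a * w + b) / (c * w + d)) = ε * F w + L

lemma lim_base {a b c d : ℤ} {ε C : ℂ} (h : Mv a b c d ε) (hc : c ≠ 0)
    (hC : ∀ w : ℂ, 0 < w.im → F ((a * w + b) / (c * w + d)) = ε * F w + C) : Lim (a / c) C :=
  ⟨a, b, c, d, ε, h, hc, by rw [div_mul_cancel₀]; exact_mod_cast hc, hC⟩

lemma lim_move {a b c d : ℤ} {ε C : ℂ} (h : Mv a b c d ε)
    (hC : ∀ w : ℂ, 0 < w.im → F ((a * w + b) / (c * w + d)) = ε * F w + C) {x : ℚ} {L : ℂ}
    (hx : Lim x L) (h0 : c * x + d ≠ 0) : Lim ((a * x + b) / (c * x + d)) (ε * L + C) := by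
  obtain ⟨a', b', c', d', ε', h', hc', ha', hL⟩ := hx
  obtain ⟨h1, h2⟩ := mv_comp h h'
  refine ⟨_, _, _, _, _, h1, ?_, ?_, ?_⟩
  · intro h3
    have h4 : ((c * a' + d * c' : ℤ) : ℚ) = 0 := by rw [h3]; norm_num
    push_cast at h4
    rw [ha'] at h4
    have h5 : (c * x + d) * (c' : ℚ) = 0 := by linear_combination h4
    rcases mul_eq_zero.1 h5 with h6 | h6
    · exact h0 h6
    · exact hc' (by exact_mod_cast h6)
  · push_cast
    rw [ha']
    have h5 : (c : ℚ) * (x * c') + d * c' = (c * x + d) * c' := by ring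
    have h6 : (a * x + b) / (c * x + d) * ((c * x + d) * (c' : ℚ)) = (a * x + b) * c' := by
      rw [← mul_assoc, div_mul_cancel₀ _ h0]
    rw [h5, h6]
    ring
  · intro w hw
    rw [h2 w hw, hC _ (mv_im h'.det hw).2, hL w hw]
    ring

/-- exponential decay -/
lemma gg_bound {y : ℝ} (hy : 0 < y) : ∃ C : ℝ, 0 ≤ C ∧ ∀ w : ℂ, y ≤ w.im →
    ‖gg w‖ ≤ C * Real.exp (-Real.pi * w.im) := by
  have hpi := Real.pi_pos
  have hr : Real.exp (-2 * Real.pi * (y / 2)) < 1 := by
    rw [Real.exp_lt_one_iff]; nlinarith [mul_pos hpi hy]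
  have hc : ContinuousOn phi2 (Metric.closedBall 0 (Real.exp (-2 * Real.pi * (y / 2)))) :=
    phi2_diff.continuousOn.mono (Metric.closedBall_subset_ball hr)
  obtain ⟨C, hC⟩ := (isCompact_closedBall (0 : ℂ) _).exists_bound_of_continuousOn hc
  refine ⟨max C 0, le_max_right _ _, fun w hw => ?_⟩
  have hw2 : (w / 2).im = w.im / 2 := by simp
  rw [gg_q, norm_mul, norm_qq, mul_comm, hw2]
  have h1 : ‖phi2 (qq (w / 2))‖ ≤ max C 0 := by
    refine (hC (qq (w / 2)) ?_).trans (le_max_left _ _)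
    rw [mem_closedBall_zero_iff, norm_qq, hw2]
    exact Real.exp_le_exp.2 (by nlinarith [mul_le_mul_of_nonneg_left hw hpi.le])
  have e : -2 * Real.pi * (w.im / 2) = -Real.pi * w.im := by ring
  rw [e]
  exact mul_le_mul_of_nonneg_right h1 (Real.exp_pos _).le

lemma gg_cont : ContinuousOn gg {w : ℂ | 0 < w.im} := fun _ hw =>
  (gg_diff hw).continuousAt.continuousWithinAt

lemma gg_line_cont (z : ℂ) {a : ℝ} (h : 0 < z.im + a) :
    ContinuousOn (fun t : ℝ => gg (z + t * Complex.I)) (Ici a) := by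
  refine gg_cont.comp (by fun_prop) ?_
  intro t ht
  change 0 < (z + t * Complex.I).im
  rw [line_im]
  have : a ≤ t := ht
  linarith

/-- integrability near infinity -/
lemma gg_line_int (z : ℂ) {a : ℝ} (h : 0 < z.im + a) :
    IntegrableOn (fun t : ℝ => gg (z + t * Complex.I)) (Ioi a) := by
  obtain ⟨C, hC0, hC⟩ := gg_bound h
  have hpi := Real.pi_pos
  have hcont := gg_line_cont z h
  refine Integrable.mono' (g := fun t : ℝ => C * Real.exp (-Real.pi * z.im) *
    Real.exp (-Real.pi * t)) ?_ ?_ ?_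
  · exact ((exp_neg_integrableOn_Ioi a hpi).const_mul _)
  · exact (hcont.mono Ioi_subset_Ici_self).aestronglyMeasurable measurableSet_Ioi
  · refine (ae_restrict_mem measurableSet_Ioi).mono fun t ht => ?_
    have ht' : a < t := ht
    refine (hC (z + t * Complex.I) (by rw [line_im]; linarith)).trans (le_of_eq ?_)
    rw [line_im, mul_assoc, ← Real.exp_add]
    ring_nf

lemma F_line_deriv (z : ℂ) {t : ℝ} (ht : 0 < z.im + t) :
    HasDerivAt (fun t : ℝ => F (z + t * Complex.I)) (-Real.pi * gg (z + t * Complex.I)) t := by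
  have h1 : HasDerivAt (fun t : ℝ => z + (t : ℂ) * Complex.I) Complex.I t := by
    have := ((Complex.ofRealCLM.hasDerivAt (x := t)).mul_const Complex.I).const_add z
    simpa using this
  have h2 : HasDerivAt F _ (z + t * Complex.I) := F_deriv (by rw [line_im]; exact ht)
  refine (h2.comp t h1).congr_deriv ?_
  linear_combination (Real.pi * gg (z + t * Complex.I)) * Complex.I_mul_I

lemma F_line_tendsto (z : ℂ) : Tendsto (fun t : ℝ => F (z + t * Complex.I)) atTop (𝓝 0) := by
  refine F_tendsto.comp ?_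
  unfold iI
  rw [tendsto_comap_iff]
  have : Complex.im ∘ (fun t : ℝ => z + (t : ℂ) * Complex.I) = fun t => z.im + t := by
    ext t; exact line_im z t
  rw [this]
  exact tendsto_atTop_add_const_left _ _ tendsto_id

/-- the integral from a point of the upper half-plane or from a good rational -/
lemma integral_line (z : ℂ) (hz : 0 ≤ z.im) {C : ℂ}
    (hint : IntegrableOn (fun t : ℝ => gg (z + t * Complex.I)) (Ioi 0))
    (hlim : Tendsto (fun t : ℝ => F (z + t * Complex.I)) (𝓝[>] 0) (𝓝 C)) :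
    Real.pi * ∫ t in Ioi (0 : ℝ), gg (z + t * Complex.I) = C := by
  set g : ℝ → ℂ := Function.update (fun t : ℝ => F (z + t * Complex.I)) 0 C with hg
  have h1 : ContinuousWithinAt g (Ici 0) 0 := by
    rw [continuousWithinAt_update_same]
    convert hlim using 2
    ext t
    simp
  have h2 : ∀ t ∈ Ioi (0 : ℝ), HasDerivAt g (-Real.pi * gg (z + t * Complex.I)) t := by
    intro t ht
    have ht' : 0 < t := ht
    refine (F_line_deriv z (by linarith)).congr_of_eventuallyEq ?_
    filter_upwards [isOpen_Ioi.mem_nhds ht] with s hs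
    have hs' : (0 : ℝ) < s := hs
    rw [hg, Function.update_of_ne hs'.ne']
  have h3 : Tendsto g atTop (𝓝 0) := by
    refine (F_line_tendsto z).congr' ?_
    filter_upwards [eventually_gt_atTop 0] with s hs
    rw [hg, Function.update_of_ne hs.ne']
  have h4 := integral_Ioi_of_hasDerivAt_of_tendsto h1 h2 (hint.const_mul _) h3
  have h5 : g 0 = C := by rw [hg, Function.update_self]
  have h6 : (∫ t in Ioi (0 : ℝ), -(Real.pi : ℂ) * gg (z + t * Complex.I)) =
      -(Real.pi : ℂ) * ∫ t in Ioi (0 : ℝ), gg (z + t * Complex.I) := integral_const_mul _ _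
  rw [h6, h5] at h4
  linear_combination -h4

theorem lim_int {x : ℚ} {L : ℂ} (hx : Lim x L) :
    IntegrableOn (fun t : ℝ => gg ((x : ℂ) + t * Complex.I)) (Ioi 0) ∧
    Real.pi * ∫ t in Ioi (0 : ℝ), gg ((x : ℂ) + t * Complex.I) = L := by
  obtain ⟨a, b, c, d, ε, h, hc, ha, hL⟩ := hx
  have hcR : (c : ℝ) ≠ 0 := by exact_mod_cast hc
  have hcC : (c : ℂ) ≠ 0 := by exact_mod_cast hc
  have hD : (0 : ℝ) < (a * d - b * c : ℤ) := by exact_mod_cast h.det
  set D : ℝ := ((a * d - b * c : ℤ) : ℝ) with hDdef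
  have hDC : (((a * d - b * c : ℤ) : ℂ)) = (D : ℂ) := by rw [hDdef]; norm_cast
  have hDC' : (D : ℂ) = a * d - b * c := by rw [← hDC]; push_cast; ring
  set K : ℝ := (c : ℝ) ^ 2 / D with hKdef
  have hK : 0 < K := by positivity
  have haC : (a : ℂ) = x * c := by exact_mod_cast congrArg (fun r : ℚ => (r : ℂ)) ha
  set x0 : ℝ := -(d : ℝ) / c with hx0
  have hx0C : (x0 : ℂ) = -(d : ℂ) / c := by rw [hx0]; push_cast; ring
  have hden : ∀ s : ℝ, (c : ℂ) * (x0 + s * Complex.I) + d = c * s * Complex.I := by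
    intro s
    rw [hx0C]
    field_simp
    ring
  have hKC : (K : ℂ) = (c : ℂ) ^ 2 / D := by rw [hKdef]; push_cast; ring
  have hDne : (D : ℂ) ≠ 0 := by exact_mod_cast hD.ne'
  have hI := Complex.I_ne_zero
  have he : ∀ s : ℝ, 0 < s → (a * ((x0 : ℂ) + s * Complex.I) + b) / (c * (x0 + s * Complex.I) + d) =
      x + ((K * s)⁻¹ : ℝ) * Complex.I := by
    intro s hs
    have hsC : (s : ℂ) ≠ 0 := by exact_mod_cast hs.ne'
    have e1 : (((K * s)⁻¹ : ℝ) : ℂ) = D / (c ^ 2 * s) := by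
      push_cast
      rw [hKC]
      field_simp
    rw [hden s, e1, div_eq_iff (mul_ne_zero (mul_ne_zero hcC hsC) hI), hx0C]
    have e2 : (D : ℂ) / (c ^ 2 * s) * Complex.I * (c * s * Complex.I) = -(D / c) := by
      field_simp
      rw [Complex.I_sq]
    have e3 : (x : ℂ) * (c * s * Complex.I) = a * s * Complex.I := by rw [haC]; ring
    rw [add_mul, e2, e3, hDC']
    field_simp
    ring
  have hgg : ∀ s : ℝ, 0 < s → ‖gg (x + ((K * s)⁻¹ : ℝ) * Complex.I)‖ =
      K * s ^ 2 * ‖gg (x0 + s * Complex.I)‖ := by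
    intro s hs
    have him : 0 < ((x0 : ℂ) + s * Complex.I).im := by simpa using hs
    have h1 := h.gg' _ him
    rw [he s hs, hden s, hDC] at h1
    have hsC : (s : ℂ) ≠ 0 := by exact_mod_cast hs.ne'
    have h2 : gg (x + ((K * s)⁻¹ : ℝ) * Complex.I) =
        -(((K * s ^ 2 : ℝ) : ℂ) * (ε * gg (x0 + s * Complex.I))) := by
      rw [← h1]
      push_cast
      rw [hKC]
      field_simp
      rw [Complex.I_sq]
      ring
    rw [h2, norm_neg, norm_mul, norm_mul, Complex.norm_real, Real.norm_of_nonneg (by positivity)]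
    rcases h.eps with rfl | rfl <;> simp
  have hinv : ∀ t : ℝ, 0 < t → (K * (K * t)⁻¹)⁻¹ = t := fun t ht => by field_simp
  have hint : IntegrableOn (fun t : ℝ => gg ((x : ℂ) + t * Complex.I)) (Ioi 0) := by
    rw [← Ioc_union_Ioi_eq_Ioi (zero_le_one : (0 : ℝ) ≤ 1)]
    refine IntegrableOn.union ?_ (gg_line_int x (by simp))
    obtain ⟨B, hB0, hB⟩ := gg_bound (inv_pos.2 hK)
    have hcont : ContinuousOn (fun t : ℝ => gg ((x : ℂ) + t * Complex.I)) (Ioc 0 1) := by
      have h1 := gg_cont.comp (f := fun t : ℝ => (x : ℂ) + t * Complex.I) (s := Ioi 0) (by fun_prop)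
          (fun u hu => by
            change 0 < ((x : ℂ) + u * Complex.I).im
            rw [line_im]
            simpa using hu)
      exact h1.mono Ioc_subset_Ioi_self
    refine IntegrableOn.of_bound (C := K * B) (by simp)
      (hcont.aestronglyMeasurable measurableSet_Ioc) ?_
    refine (ae_restrict_mem measurableSet_Ioc).mono fun t ht => ?_
    have ht0 : 0 < t := ht.1
    set s : ℝ := (K * t)⁻¹ with hs
    have hs0 : 0 < s := by positivity
    have h1 := hgg s hs0
    rw [hs, hinv t ht0] at h1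
    rw [h1, ← hs]
    have h2 : K⁻¹ ≤ s := by
      rw [hs]
      exact inv_anti₀ (by positivity) (by nlinarith [ht.2])
    have h3 := hB (x0 + s * Complex.I) (by simpa using h2)
    have h4 : ((x0 : ℂ) + s * Complex.I).im = s := by simp
    rw [h4] at h3
    have h5 : s ^ 2 * Real.exp (-Real.pi * s) ≤ 1 := by
      have e1 := Real.add_one_le_exp s
      have e2 : s ^ 2 ≤ Real.exp (Real.pi * s) := by
        have e3 : Real.exp (2 * s) ≤ Real.exp (Real.pi * s) := by
          apply Real.exp_le_exp.2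
          have := Real.pi_gt_three
          nlinarith
        refine le_trans ?_ e3
        rw [two_mul, Real.exp_add]
        nlinarith [Real.exp_pos s]
      have e4 : Real.exp (-Real.pi * s) = (Real.exp (Real.pi * s))⁻¹ := by
        rw [← Real.exp_neg]; ring_nf
      rw [e4, ← div_eq_mul_inv]
      exact (div_le_one (Real.exp_pos _)).2 e2
    calc K * s ^ 2 * ‖gg (x0 + s * Complex.I)‖
        ≤ K * s ^ 2 * (B * Real.exp (-Real.pi * s)) := by gcongr
      _ = K * B * (s ^ 2 * Real.exp (-Real.pi * s)) := by ring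
      _ ≤ K * B * 1 := by gcongr
      _ = K * B := mul_one _
  refine ⟨hint, integral_line x (by simp) hint ?_⟩
  have ht : Tendsto (fun t : ℝ => (x0 : ℂ) + ((K * t)⁻¹ : ℝ) * Complex.I) (𝓝[>] 0) iI := by
    unfold iI
    rw [tendsto_comap_iff]
    have e : Complex.im ∘ (fun t : ℝ => (x0 : ℂ) + ((K * t)⁻¹ : ℝ) * Complex.I) =
        fun t : ℝ => K⁻¹ * t⁻¹ := by
      ext t; simp [mul_comm]
    rw [e]
    exact tendsto_inv_nhdsGT_zero.const_mul_atTop (inv_pos.2 hK)
  have h1 : Tendsto (fun t : ℝ => ε * F ((x0 : ℂ) + ((K * t)⁻¹ : ℝ) * Complex.I) + L) (𝓝[>] 0)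
      (𝓝 (ε * 0 + L)) := ((F_tendsto.comp ht).const_mul ε).add_const L
  rw [mul_zero, zero_add] at h1
  refine h1.congr' ?_
  filter_upwards [self_mem_nhdsWithin] with t ht
  have ht0 : (0 : ℝ) < t := ht
  have hs0 : 0 < (K * t)⁻¹ := by positivity
  have h2 := he _ hs0
  rw [hinv t ht0] at h2
  rw [← h2, hL _ (by simpa using hs0)]

/-- the integral from `x` -/
noncomputable def J (x : ℚ) : ℂ :=
  Real.pi * ∫ t in Ioi (0 : ℝ), gg ((x : ℂ) + t * Complex.I)

lemma J_eq {x : ℚ} {L : ℂ} (hx : Lim x L) : J x = L := (lim_int hx).2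

lemma qq_conj (z : ℂ) : qq (-(starRingEnd ℂ z)) = starRingEnd ℂ (qq z) := by
  unfold qq
  rw [← Complex.exp_conj]
  congr 1
  simp only [map_mul, Complex.conj_I, Complex.conj_ofReal]
  have : (starRingEnd ℂ) (2 : ℂ) = 2 := Complex.conj_ofNat 2
  rw [this]
  ring

lemma Q_conj {q : ℂ} (hq : ‖q‖ < 1) : Q (starRingEnd ℂ q) = starRingEnd ℂ (Q q) := by
  obtain ⟨φ, -, hr, -⟩ := Pool.Agent.W598.MT.s_qexp
  have h1 := hr (starRingEnd ℂ q) (by simpa using hq)
  have h2 := (hr q hq).map (starRingEnd ℂ) Complex.continuous_conj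
  refine h1.unique (h2.congr_fun ?_ |> fun x => x)
  intro n
  simp only [Function.comp_apply, map_mul, map_pow]
  congr 1
  exact (map_intCast (starRingEnd ℂ) _).symm

lemma phi2_conj {q : ℂ} (hq : ‖q‖ < 1) : phi2 (starRingEnd ℂ q) = starRingEnd ℂ (phi2 q) := by
  have h : ∀ n : ℕ, n ≠ 0 → ‖q ^ n‖ < 1 := fun n hn => by
    rw [norm_pow]; exact pow_lt_one₀ (norm_nonneg _) hq hn
  unfold phi2
  rw [← map_pow, ← map_pow, Q_conj (h 2 (by norm_num)), Q_conj (h 10 (by norm_num))]
  simp only [map_mul, map_pow]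

lemma gg_conj {w : ℂ} (hw : 0 < w.im) : gg (-(starRingEnd ℂ w)) = starRingEnd ℂ (gg w) := by
  have h2 : (starRingEnd ℂ) (2 : ℂ) = 2 := Complex.conj_ofNat 2
  have e : -(starRingEnd ℂ w) / 2 = -(starRingEnd ℂ (w / 2)) := by rw [map_div₀, h2]; ring
  rw [gg_q, gg_q, e, qq_conj, phi2_conj (norm_qq_lt (half_im hw)), map_mul]

lemma J_conj (x : ℚ) : J (-x) = starRingEnd ℂ (J x) := by
  unfold J
  rw [map_mul, ← integral_conj, Complex.conj_ofReal]
  congr 1
  refine setIntegral_congr_fun measurableSet_Ioi fun t ht => ?_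
  have ht' : 0 < t := ht
  rw [← gg_conj (by rw [line_im]; simpa using ht')]
  congr 1
  simp only [map_add, map_mul, Complex.conj_I, Complex.conj_ofReal]
  have : (starRingEnd ℂ) ((x : ℚ) : ℂ) = x := by
    have e : ((x : ℚ) : ℂ) = (((x : ℚ) : ℝ) : ℂ) := by push_cast; rfl
    rw [e]; exact Complex.conj_ofReal _
  rw [this]
  push_cast
  ring

/-- `Q` is positive on `[0, 1)` -/
lemma Q_pos {x : ℝ} (h0 : 0 ≤ x) (h1 : x < 1) : ∃ y : ℝ, 0 < y ∧ Q x = y := by
  have hre : ∀ t : ℝ, 0 ≤ t → t < 1 → Q t = ((Q t).re : ℂ) := by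
    intro t ht0 ht1
    have h2 : ‖(t : ℂ)‖ < 1 := by rw [Complex.norm_real, Real.norm_of_nonneg ht0]; exact ht1
    have h3 := Q_conj h2
    rw [Complex.conj_ofReal] at h3
    exact (Complex.conj_eq_iff_re.1 h3.symm).symm
  refine ⟨(Q x).re, ?_, hre x h0 h1⟩
  by_contra hneg
  push Not at hneg
  have hcont : ContinuousOn (fun t : ℝ => (Q t).re) (Icc 0 x) := by
    refine Complex.continuous_re.comp_continuousOn ?_
    refine Q_diff.continuousOn.comp (by fun_prop) ?_
    intro t ht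
    rw [Metric.mem_ball, dist_zero_right, Complex.norm_real, Real.norm_of_nonneg ht.1]
    exact lt_of_le_of_lt ht.2 h1
  have h2 : (0 : ℝ) ∈ Icc ((Q ((x : ℝ) : ℂ)).re) ((Q ((0 : ℝ) : ℂ)).re) := by
    refine ⟨hneg, ?_⟩
    rw [Complex.ofReal_zero, Q_zero]
    norm_num
  obtain ⟨t, ht, ht2⟩ := intermediate_value_Icc' h0 hcont h2
  have h3 := hre t ht.1 (lt_of_le_of_lt ht.2 h1)
  dsimp only at ht2
  rw [ht2] at h3
  have h4 : ‖(t : ℂ)‖ < 1 := by
    rw [Complex.norm_real, Real.norm_of_nonneg ht.1]; exact lt_of_le_of_lt ht.2 h1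
  exact Pool.Agent.W97.MT.Q_ne h4 (by rw [h3]; norm_num)

lemma qq_half_I (u : ℝ) : qq ((u : ℂ) * Complex.I / 2) = (Real.exp (-Real.pi * u) : ℝ) := by
  unfold qq
  rw [Complex.ofReal_exp]
  congr 1
  push_cast
  linear_combination (Real.pi * u) * Complex.I_mul_I

/-- positivity on the imaginary axis -/
lemma gg_pos {u : ℝ} (hu : 0 < u) : ∃ y : ℝ, 0 < y ∧ gg (u * Complex.I) = y := by
  set x : ℝ := Real.exp (-Real.pi * u) with hx
  have hx0 : 0 < x := Real.exp_pos _
  have hx1 : x < 1 := by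
    rw [hx, Real.exp_lt_one_iff]
    nlinarith [mul_pos Real.pi_pos hu]
  obtain ⟨y2, hy2, e2⟩ := Q_pos (x := x ^ 2) (by positivity) (pow_lt_one₀ hx0.le hx1 (by norm_num))
  obtain ⟨y10, hy10, e10⟩ := Q_pos (x := x ^ 10) (by positivity)
    (pow_lt_one₀ hx0.le hx1 (by norm_num))
  refine ⟨x * (y2 ^ 2 * y10 ^ 2), by positivity, ?_⟩
  push_cast at e2 e10
  rw [gg_q, qq_half_I, ← hx]
  unfold phi2
  rw [e2, e10]
  push_cast
  ring

/-- the integrand on the imaginary axis -/
noncomputable def gam (u : ℝ) : ℝ := Real.pi * (gg (u * Complex.I)).re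

lemma gam_pos {u : ℝ} (hu : 0 < u) : 0 < gam u := by
  obtain ⟨y, hy, e⟩ := gg_pos hu
  unfold gam
  rw [e, Complex.ofReal_re]
  exact mul_pos Real.pi_pos hy

lemma gam_eq {u : ℝ} (hu : 0 < u) : (gam u : ℂ) = Real.pi * gg (u * Complex.I) := by
  obtain ⟨y, hy, e⟩ := gg_pos hu
  unfold gam
  rw [e, Complex.ofReal_re]
  push_cast
  rfl

/-- the constants of the transformations -/
lemma exists_zero : ∃ L : ℂ, Lim 0 L := by
  obtain ⟨L, hL⟩ := mv_W.exists_const
  have := lim_base mv_W (by norm_num) hL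
  norm_num at this
  exact ⟨L, this⟩

lemma J_zero : J 0 = ((∫ u in Ioi (0 : ℝ), gam u : ℝ) : ℂ) := by
  unfold J
  rw [← integral_const_mul, ← integral_complex_ofReal]
  refine setIntegral_congr_fun measurableSet_Ioi fun t ht => ?_
  rw [gam_eq ht]
  push_cast
  rw [zero_add]

/-- `J(0)` -/
noncomputable def J0 : ℝ := ∫ u in Ioi (0 : ℝ), gam u

lemma gam_int : IntegrableOn gam (Ioi 0) := by
  obtain ⟨L, hL⟩ := exists_zero
  have h1 := ((lim_int hL).1.const_mul (Real.pi : ℂ)).re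
  refine IntegrableOn.congr_fun (f := fun t : ℝ => RCLike.re ((Real.pi : ℂ) *
    gg (((0 : ℚ) : ℂ) + t * Complex.I))) h1 ?_ measurableSet_Ioi
  intro t ht
  have h2 := gam_eq ht
  have h3 : (((0 : ℚ) : ℂ) + t * Complex.I) = t * Complex.I := by push_cast; ring
  show RCLike.re ((Real.pi : ℂ) * gg (((0 : ℚ) : ℂ) + t * Complex.I)) = gam t
  rw [h3, ← h2]
  simp

lemma J0_pos : 0 < J0 := by
  unfold J0
  rw [setIntegral_pos_iff_support_of_nonneg_ae]
  · have h1 : Function.support gam ∩ Ioi 0 = Ioi 0 := by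
      ext u
      simp only [mem_inter_iff, Function.mem_support, and_iff_right_iff_imp]
      intro hu
      exact (gam_pos hu).ne'
    rw [h1]
    simp
  · refine (ae_restrict_mem measurableSet_Ioi).mono fun t ht => ?_
    exact (gam_pos ht).le
  · exact gam_int

/-- the values at the rational points -/
def PP (x : ℚ) (n : ℤ) : Prop := ∃ L : ℂ, Lim x L ∧ L.re = n * J0

lemma PP.re {x : ℚ} {n : ℤ} (h : PP x n) : (J x).re = n * J0 := by
  obtain ⟨L, h1, h2⟩ := h
  rw [J_eq h1, h2]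

lemma PP.int {x : ℚ} {n : ℤ} (h : PP x n) :
    IntegrableOn (fun t : ℝ => gg ((x : ℂ) + t * Complex.I)) (Ioi 0) := by
  obtain ⟨L, h1, h2⟩ := h
  exact (lim_int h1).1

theorem closed : Closed PP := by
  obtain ⟨L0, hL0⟩ := exists_zero
  obtain ⟨CT, hT⟩ := mv_T.exists_const
  obtain ⟨CTi, hTi⟩ := mv_Ti.exists_const
  obtain ⟨C1, h1⟩ := mv_e1.exists_const
  obtain ⟨C2, h2⟩ := mv_e2.exists_const
  obtain ⟨CU, hU⟩ := mv_U.exists_const
  obtain ⟨CUi, hUi⟩ := mv_Ui.exists_const
  have z0 : L0 = J0 := by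
    rw [← J_eq hL0, J_zero]; rfl
  have uniq : ∀ {x : ℚ} {L L' : ℂ}, Lim x L → Lim x L' → L = L' := fun h h' => by
    rw [← J_eq h, ← J_eq h']
  -- the translations
  have zT : CT = 0 := by
    have h := (F_tendsto.comp (f := fun w : ℂ => w + 1) (x := iI) ?_)
    · have h3 : Tendsto (fun w => -1 * F w + CT) iI (𝓝 (-1 * 0 + CT)) :=
        (F_tendsto.const_mul _).add_const _
      have h4 := tendsto_nhds_unique (h3.congr' ?_) h
      · simpa using h4
      · filter_upwards [iI_pos] with w hw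
        have := hT w hw
        simp only [Function.comp_apply]
        rw [← this]
        congr 1
        push_cast
        ring
    · unfold iI
      rw [tendsto_comap_iff]
      have e : Complex.im ∘ (fun w : ℂ => w + 1) = Complex.im := by ext w; simp
      rw [e]
      exact tendsto_comap
  have zTi : CTi = 0 := by
    have h := (F_tendsto.comp (f := fun w : ℂ => w - 1) (x := iI) ?_)
    · have h3 : Tendsto (fun w => -1 * F w + CTi) iI (𝓝 (-1 * 0 + CTi)) :=
        (F_tendsto.const_mul _).add_const _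
      have h4 := tendsto_nhds_unique (h3.congr' ?_) h
      · simpa using h4
      · filter_upwards [iI_pos] with w hw
        have := hTi w hw
        simp only [Function.comp_apply]
        rw [← this]
        congr 1
        push_cast
        ring
    · unfold iI
      rw [tendsto_comap_iff]
      have e : Complex.im ∘ (fun w : ℂ => w - 1) = Complex.im := by ext w; simp
      rw [e]
      exact tendsto_comap
  -- the parabolic elements fixing zero
  have zU : CU = 2 * J0 := by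
    have h := lim_move mv_U hU hL0 (by norm_num)
    have e : (((1 : ℤ) : ℚ) * 0 + ((0 : ℤ) : ℚ)) / (((-5 : ℤ) : ℚ) * 0 + ((1 : ℤ) : ℚ)) = 0 := by
      norm_num
    rw [e] at h
    have := uniq h hL0
    rw [z0] at this
    linear_combination this
  have zUi : CUi = 2 * J0 := by
    have h := lim_move mv_Ui hUi hL0 (by norm_num)
    have e : (((1 : ℤ) : ℚ) * 0 + ((0 : ℤ) : ℚ)) / (((5 : ℤ) : ℚ) * 0 + ((1 : ℤ) : ℚ)) = 0 := by
      norm_num
    rw [e] at h
    have := uniq h hL0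
    rw [z0] at this
    linear_combination this
  -- the elliptic elements
  have l1 : Lim (2 / 5) C1 := by
    have := lim_base mv_e1 (by norm_num) h1
    norm_num at this
    exact this
  have l2 : Lim (-2 / 5) C2 := by
    have := lim_base mv_e2 (by norm_num) h2
    norm_num at this ⊢
    exact this
  have hconj : C2 = starRingEnd ℂ C1 := by
    rw [← J_eq l1, ← J_eq l2, ← J_conj]
    norm_num
  have hsum : C1 + C2 = 2 * J0 := by
    have a1 := lim_move mv_Ti hTi (lim_move mv_e1 h1 hL0 (by norm_num)) (by norm_num)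
    have a2 := lim_move mv_e2 h2 hL0 (by norm_num)
    have e1 : (((1 : ℤ) : ℚ) * ((((2 : ℤ) : ℚ) * 0 + ((-1 : ℤ) : ℚ)) / (((5 : ℤ) : ℚ) * 0 +
        ((-2 : ℤ) : ℚ))) + ((-1 : ℤ) : ℚ)) / (((0 : ℤ) : ℚ) * ((((2 : ℤ) : ℚ) * 0 +
        ((-1 : ℤ) : ℚ)) / (((5 : ℤ) : ℚ) * 0 + ((-2 : ℤ) : ℚ))) + ((1 : ℤ) : ℚ)) = -1 / 2 := by
      norm_num
    have e2 : (((-2 : ℤ) : ℚ) * 0 + ((-1 : ℤ) : ℚ)) / (((5 : ℤ) : ℚ) * 0 + ((2 : ℤ) : ℚ)) =
        -1 / 2 := by norm_num
    rw [e1] at a1
    rw [e2] at a2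
    have := uniq a1 a2
    rw [z0, zTi] at this
    linear_combination -this
  have hre1 : C1.re = J0 := by
    have h3 := congrArg Complex.re hsum
    rw [hconj] at h3
    simp only [Complex.add_re, Complex.conj_re, Complex.mul_re, Complex.ofReal_re,
      Complex.ofReal_im, mul_zero, sub_zero] at h3
    have h4 : (2 : ℂ).re = 2 := rfl
    rw [h4] at h3
    linarith
  have hre2 : C2.re = J0 := by rw [hconj, Complex.conj_re, hre1]
  have reJ : ∀ n : ℤ, ∀ L : ℂ, L.re = n * J0 → ∀ k : ℤ, ∀ C : ℂ, C.re = k * J0 →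
      (-1 * L + C).re = ((k - n : ℤ) : ℝ) * J0 := by
    intro n L hL k C hC
    have : (-1 * L + C).re = -L.re + C.re := by simp
    rw [this, hL, hC]
    push_cast
    ring
  refine ⟨?_, ?_, ?_, ?_, ?_, ?_, ?_, ?_, ?_, ?_, ?_⟩
  · exact ⟨L0, hL0, by rw [z0]; simp⟩
  · exact ⟨C1, l1, by rw [hre1]; simp⟩
  · exact ⟨C2, l2, by rw [hre2]; simp⟩
  · have := lim_base mv_Ui (by norm_num) hUi
    norm_num at this
    refine ⟨CUi, by norm_num; exact this, ?_⟩
    rw [zUi]; simp
  · have := lim_base mv_U (by norm_num) hU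
    norm_num at this
    refine ⟨CU, by norm_num; exact this, ?_⟩
    rw [zU]; simp
  · rintro r n ⟨L, hL, hn⟩
    have h := lim_move mv_T hT hL (by norm_num)
    refine ⟨-1 * L + CT, ?_, ?_⟩
    · convert h using 1
      push_cast
      ring
    · rw [reJ n L hn 0 CT (by rw [zT]; simp)]
      push_cast
      ring
  · rintro r n ⟨L, hL, hn⟩
    have h := lim_move mv_Ti hTi hL (by norm_num)
    refine ⟨-1 * L + CTi, ?_, ?_⟩
    · convert h using 1
      push_cast
      ring
    · rw [reJ n L hn 0 CTi (by rw [zTi]; simp)]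
      push_cast
      ring
  · rintro r n h0 ⟨L, hL, hn⟩
    have h := lim_move mv_e1 h1 hL (by push_cast; intro h5; apply h0; linarith)
    refine ⟨-1 * L + C1, ?_, ?_⟩
    · convert h using 1
      push_cast
      congr 1 <;> ring
    · rw [reJ n L hn 1 C1 (by rw [hre1]; simp)]
  · rintro r n h0 ⟨L, hL, hn⟩
    have h := lim_move mv_e2 h2 hL (by push_cast; intro h5; apply h0; linarith)
    refine ⟨-1 * L + C2, ?_, ?_⟩
    · convert h using 1
      push_cast
      congr 1 <;> ring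
    · rw [reJ n L hn 1 C2 (by rw [hre2]; simp)]
  · rintro r n h0 ⟨L, hL, hn⟩
    have h := lim_move mv_U hU hL (by push_cast; intro h5; apply h0; linarith)
    refine ⟨-1 * L + CU, ?_, ?_⟩
    · convert h using 1
      push_cast
      congr 1 <;> ring
    · rw [reJ n L hn 2 CU (by rw [zU]; simp)]
  · rintro r n h0 ⟨L, hL, hn⟩
    have h := lim_move mv_Ui hUi hL (by push_cast; intro h5; apply h0; linarith)
    refine ⟨-1 * L + CUi, ?_, ?_⟩
    · convert h using 1
      push_cast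
      congr 1 <;> ring
    · rw [reJ n L hn 2 CUi (by rw [zUi]; simp)]

end Pool.Agent.W97.V20
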