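import Pool.Agent.W97.V20.Ident5
import Pool.Agent.W97.V20.Cusp

/-!
The real period.
-/

set_option autoImplicit false

open Filter Topology MeasureTheory Set

namespace Pool.Agent.W97.V20

open Pool.Agent.W97.TW
open Pool.Agent.W97.MT (S_QEXP qq qq_ne norm_qq norm_qq_lt iI iI_pos QV H_open)

lemma qq_I (u : ℝ) : qq ((u : ℂ) * Complex.I) = (Real.exp (-2 * Real.pi * u) : ℝ) := by
  unfold qq
  rw [Complex.ofReal_exp]
  congr 1
  push_cast
  linear_combination (2 * Real.pi * u) * Complex.I_mul_I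

lemma uI_im {u : ℝ} (hu : 0 < u) : 0 < ((u : ℂ) * Complex.I).im := by simpa using hu

lemma tf_pos {u : ℝ} (hu : 0 < u) : ∃ y : ℝ, 0 < y ∧ tf (u * Complex.I) = y := by
  set x : ℝ := Real.exp (-2 * Real.pi * u) with hx
  have hx0 : 0 < x := Real.exp_pos _
  have hx1 : x < 1 := by
    rw [hx, Real.exp_lt_one_iff]
    nlinarith [mul_pos Real.pi_pos hu]
  obtain ⟨y1, hy1, e1⟩ := Q_pos hx0.le hx1
  obtain ⟨y5, hy5, e5⟩ := Q_pos (x := x ^ 5) (by positivity)
    (pow_lt_one₀ hx0.le hx1 (by norm_num))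
  refine ⟨(y1 ^ 3 * (y5 ^ 3)⁻¹) ^ 2 / x, by positivity, ?_⟩
  have h := tf_q (uI_im hu)
  rw [qq_I, ← hx] at h
  unfold kk at h
  push_cast at e5
  rw [e1, e5] at h
  have hxC : (x : ℂ) ≠ 0 := by exact_mod_cast hx0.ne'
  push_cast
  rw [eq_div_iff hxC, mul_comm, h]

/-- `t` on the imaginary axis -/
noncomputable def TT (u : ℝ) : ℝ := (tf (u * Complex.I)).re

lemma TT_pos {u : ℝ} (hu : 0 < u) : 0 < TT u := by
  obtain ⟨y, hy, e⟩ := tf_pos hu
  unfold TT
  rw [e, Complex.ofReal_re]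
  exact hy

lemma TT_eq {u : ℝ} (hu : 0 < u) : tf (u * Complex.I) = TT u := by
  obtain ⟨y, hy, e⟩ := tf_pos hu
  unfold TT
  rw [e, Complex.ofReal_re]

lemma tf_line {u : ℝ} (hu : 0 < u) : HasDerivAt (fun v : ℝ => tf (v * Complex.I))
    (Complex.I * deriv tf (u * Complex.I)) u := by
  have h1 : HasDerivAt (fun v : ℝ => (v : ℂ) * Complex.I) Complex.I u := by
    simpa using (Complex.ofRealCLM.hasDerivAt (x := u)).mul_const Complex.I
  have h2 : HasDerivAt tf (deriv tf (u * Complex.I)) ((u : ℂ) * Complex.I) :=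
    (tf_diff (uI_im hu)).hasDerivAt
  refine (h2.comp u h1).congr_deriv ?_
  ring

lemma TT_deriv {u : ℝ} (hu : 0 < u) : ∃ d : ℝ, HasDerivAt TT d u ∧
    Complex.I * deriv tf (u * Complex.I) = d := by
  have h1 := tf_line hu
  have h2 : HasDerivAt TT (Complex.I * deriv tf (u * Complex.I)).re u :=
    Complex.reCLM.hasFDerivAt.comp_hasDerivAt u h1
  have h3 : HasDerivAt (fun v : ℝ => (tf (v * Complex.I)).im)
      (Complex.I * deriv tf (u * Complex.I)).im u :=
    Complex.imCLM.hasFDerivAt.comp_hasDerivAt u h1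
  have h4 : (fun v : ℝ => (tf (v * Complex.I)).im) =ᶠ[𝓝 u] fun _ => (0 : ℝ) := by
    filter_upwards [isOpen_Ioi.mem_nhds (show u ∈ Ioi (0 : ℝ) from hu)] with v hv
    rw [TT_eq hv, Complex.ofReal_im]
  have h5 := (h3.congr_of_eventuallyEq h4.symm).unique (hasDerivAt_const u (0 : ℝ))
  refine ⟨_, h2, ?_⟩
  apply Complex.ext
  · rw [Complex.ofReal_re]
  · rw [Complex.ofReal_im, h5]

lemma TT_sq (hcp : S_CP5) (hq : S_QEXP) {u d : ℝ} (hu : 0 < u)
    (hd : Complex.I * deriv tf (u * Complex.I) = d) :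
    d ^ 2 = (2 * gam u) ^ 2 * (TT u ^ 3 + 22 * TT u ^ 2 + 125 * TT u) := by
  have h1 := c5_zero hcp hq _ (uI_im hu)
  have h2 := gam_eq hu
  have h3 := gg_ne (uI_im hu)
  unfold c5 R5 at h1
  rw [TT_eq hu] at h1
  have hI := Complex.I_ne_zero
  have hpi : (Real.pi : ℂ) ≠ 0 := by exact_mod_cast Real.pi_ne_zero
  have h4 : (d : ℂ) ^ 2 = (2 * gam u) ^ 2 * (TT u ^ 3 + 22 * TT u ^ 2 + 125 * TT u) := by
    rw [← hd, h2]
    field_simp at h1
    linear_combination Complex.I ^ 2 * h1 + 4 * Real.pi ^ 2 * gg (u * Complex.I) ^ 2 * (TT u ^ 3 + 22 * TT u ^ 2 + 125 * TT u) * 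
      (Complex.I ^ 2 - 1) * Complex.I_sq
  exact_mod_cast h4

lemma tendsto_exp_neg : Tendsto (fun u : ℝ => Real.exp (-2 * Real.pi * u)) atTop (𝓝[>] 0) := by
  have h2 : -2 * Real.pi < 0 := by have := Real.pi_pos; linarith
  exact Real.tendsto_exp_atBot_nhdsGT.comp (tendsto_id.const_mul_atTop_of_neg h2)

lemma TT_atTop : Tendsto TT atTop atTop := by
  have h1 : Tendsto (fun u : ℝ => (u : ℂ) * Complex.I) atTop iI := by
    unfold iI
    rw [tendsto_comap_iff]
    have : Complex.im ∘ (fun u : ℝ => (u : ℂ) * Complex.I) = fun u => u := by ext u; simp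
    rw [this]
    exact tendsto_id
  have h2 : Tendsto (fun u : ℝ => (kk (qq (u * Complex.I)) ^ 2).re) atTop (𝓝 1) := by
    have h3 := ((QV_kk.pow 2).tendsto).comp h1
    have h4 := (Complex.continuous_re.tendsto _).comp h3
    have e : ((1 : ℂ) ^ 2).re = 1 := by norm_num
    rw [e] at h4
    exact h4
  have h3 : Tendsto (fun u : ℝ => (Real.exp (-2 * Real.pi * u))⁻¹) atTop atTop :=
    tendsto_inv_nhdsGT_zero.comp tendsto_exp_neg
  have h4 := h2.pos_mul_atTop one_pos h3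
  refine h4.congr' ?_
  filter_upwards [eventually_gt_atTop 0] with u hu
  have h5 := tf_q (uI_im hu)
  rw [TT_eq hu] at h5
  rw [← h5, qq_I, ← Complex.ofReal_mul, Complex.ofReal_re]
  have := Real.exp_pos (-2 * Real.pi * u)
  field_simp

lemma TT_W {u : ℝ} (hu : 0 < u) : TT (1 / (5 * u)) = 125 / TT u := by
  have h1 := tf_W (uI_im hu)
  have huC : (u : ℂ) ≠ 0 := by exact_mod_cast hu.ne'
  have hI := Complex.I_ne_zero
  have h2 : (-1 / (5 * ((u : ℂ) * Complex.I))) = ((1 / (5 * u) : ℝ) : ℂ) * Complex.I := by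
    push_cast
    field_simp
    rw [Complex.I_sq]
  rw [h2, TT_eq (by positivity : (0 : ℝ) < 1 / (5 * u)), TT_eq hu] at h1
  exact_mod_cast h1

lemma TT_zero : Tendsto TT (𝓝[>] 0) (𝓝 0) := by
  have h1 : Tendsto (fun u : ℝ => 1 / (5 * u)) (𝓝[>] 0) atTop := by
    have h2 : Tendsto (fun u : ℝ => (1 / 5) * u⁻¹) (𝓝[>] 0) atTop :=
      tendsto_inv_nhdsGT_zero.const_mul_atTop (by norm_num)
    refine h2.congr fun u => ?_
    ring
  have h3 := (tendsto_inv_atTop_zero.comp (TT_atTop.comp h1)).const_mul 125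
  rw [mul_zero] at h3
  refine h3.congr' ?_
  filter_upwards [self_mem_nhdsWithin] with u hu
  have hu' : (0 : ℝ) < u := hu
  simp only [Function.comp_apply]
  rw [TT_W hu']
  have := TT_pos hu'
  field_simp

lemma TT_cubic_pos {t : ℝ} (ht : 0 < t) : 0 < t ^ 3 + 22 * t ^ 2 + 125 * t := by positivity

theorem TT_hasDeriv (hcp : S_CP5) (hq : S_QEXP) {u : ℝ} (hu : 0 < u) :
    HasDerivAt TT (2 * gam u * Real.sqrt (TT u ^ 3 + 22 * TT u ^ 2 + 125 * TT u)) u := by
  choose! d hd1 hd2 using fun (u : ℝ) (hu : 0 < u) => TT_deriv hu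
  have hne : ∀ x ∈ Ioi (0 : ℝ), d x ≠ 0 := by
    intro x hx h0
    have h1 := TT_sq hcp hq hx (hd2 x hx)
    rw [h0] at h1
    have h2 := mul_pos (pow_pos (mul_pos two_pos (gam_pos hx)) 2) (TT_cubic_pos (TT_pos hx))
    rw [← h1] at h2
    norm_num at h2
  have hpos : ∀ x ∈ Ioi (0 : ℝ), 0 < d x := by
    rcases hasDerivWithinAt_forall_lt_or_forall_gt_of_forall_ne (convex_Ioi (0 : ℝ))
      (fun x hx => (hd1 x hx).hasDerivWithinAt) hne with h | h
    · exfalso
      have hanti : StrictAntiOn TT (Ioi 0) := by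
        refine strictAntiOn_of_deriv_neg (convex_Ioi 0)
          (fun x hx => (hd1 x hx).continuousAt.continuousWithinAt) fun x hx => ?_
        rw [interior_Ioi] at hx
        rw [(hd1 x hx).deriv]
        exact h x hx
      have h1 := (TT_atTop.eventually (eventually_gt_atTop (TT 1))).and (eventually_gt_atTop 1)
      obtain ⟨v, hv1, hv2⟩ := h1.exists
      have h2 := hanti (show (1 : ℝ) ∈ Ioi (0 : ℝ) by norm_num)
        (show v ∈ Ioi (0 : ℝ) by exact lt_trans one_pos hv2) hv2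
      linarith
    · exact h
  have h1 := TT_sq hcp hq hu (hd2 u hu)
  have h2 : d u = 2 * gam u * Real.sqrt (TT u ^ 3 + 22 * TT u ^ 2 + 125 * TT u) := by
    have h3 : (2 * gam u * Real.sqrt (TT u ^ 3 + 22 * TT u ^ 2 + 125 * TT u)) ^ 2 = d u ^ 2 := by
      rw [mul_pow, Real.sq_sqrt (TT_cubic_pos (TT_pos hu)).le, h1]
    have h4 : 0 ≤ 2 * gam u * Real.sqrt (TT u ^ 3 + 22 * TT u ^ 2 + 125 * TT u) :=
      mul_nonneg (mul_pos two_pos (gam_pos hu)).le (Real.sqrt_nonneg _)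
    exact ((sq_eq_sq₀ h4 (hpos u hu).le).1 h3).symm
  rw [← h2]
  exact hd1 u hu

theorem omega_eq (hcp : S_CP5) (hq : S_QEXP) (hsub : S_SUBST) (hom : S_OMEGA) :
    Omega E13 = 2 / Real.sqrt 13 * J0 := by
  rw [hom.2]
  congr 1
  refine hsub (fun u => Real.sqrt (TT u)) gam (fun u hu => Real.sqrt_pos.2 (TT_pos hu))
    (fun u hu => gam_pos hu) (fun u hu => ?_) ?_ ?_
  · have h1 := (TT_hasDeriv hcp hq hu).sqrt (TT_pos hu).ne'
    refine h1.congr_deriv ?_
    have hT := TT_pos hu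
    have e1 : Real.sqrt (TT u) ^ 2 = TT u := Real.sq_sqrt hT.le
    have e2 : Real.sqrt (TT u) ^ 4 = TT u ^ 2 := by
      rw [show (4 : ℕ) = 2 * 2 by norm_num, pow_mul, e1]
    rw [e1, e2]
    have e3 : TT u ^ 3 + 22 * TT u ^ 2 + 125 * TT u = TT u * (TT u ^ 2 + 22 * TT u + 125) := by
      ring
    rw [e3, Real.sqrt_mul hT.le]
    have := Real.sqrt_pos.2 hT
    field_simp
  · have := (Real.continuous_sqrt.tendsto 0).comp TT_zero
    rw [Real.sqrt_zero] at this
    exact this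
  · exact Real.tendsto_sqrt_atTop.comp TT_atTop

end Pool.Agent.W97.V20
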