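import Pool.Agent.W97.V20.Stm

/-!
The values of the modular symbols needed for the curve.
-/

set_option autoImplicit false

namespace Pool.Agent.W97.V20

theorem go {P : ℚ → ℤ → Prop} {r r' : ℚ} {n n' : ℤ} (h : P r n) (hr : r = r') (hn : n = n') :
    P r' n' := by
  subst hr hn; exact h

theorem s_vals : S_VALS := by
  intro P h
  have a0 : P (7 / 15) (-1) := go (h.e1 (-1 / 5) (2) (by norm_num) h.m1) (by norm_num) (by norm_num)
  have a1 : P (-29 / 65) (2) := go (h.e2 (7 / 15) (-1) (by norm_num) a0) (by norm_num) (by norm_num)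
  have a2 : P (36 / 65) (-2) := go (h.T (-29 / 65) (2) a1) (by norm_num) (by norm_num)
  have a3 : P (-3 / 5) (-1) := go (h.Ti (2 / 5) (1) h.p2) (by norm_num) (by norm_num)
  have a4 : P (11 / 25) (2) := go (h.e1 (-3 / 5) (-1) (by norm_num) a3) (by norm_num) (by norm_num)
  have a5 : P (-11 / 30) (0) := go (h.U (11 / 25) (2) (by norm_num) a4) (by norm_num) (by norm_num)
  have a6 : P (19 / 30) (0) := go (h.T (-11 / 30) (0) a5) (by norm_num) (by norm_num)
  have a7 : P (-19 / 65) (2) := go (h.U (19 / 30) (0) (by norm_num) a6) (by norm_num) (by norm_num)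
  have a8 : P (46 / 65) (-2) := go (h.T (-19 / 65) (2) a7) (by norm_num) (by norm_num)
  have a9 : P (-9 / 20) (0) := go (h.e2 (2 / 5) (1) (by norm_num) h.p2) (by norm_num) (by norm_num)
  have a10 : P (-9 / 65) (2) := go (h.U (-9 / 20) (0) (by norm_num) a9) (by norm_num) (by norm_num)
  have a11 : P (56 / 65) (-2) := go (h.T (-9 / 65) (2) a10) (by norm_num) (by norm_num)
  have a12 : P (1 / 10) (0) := go (h.Ui (1 / 5) (2) (by norm_num) h.p1) (by norm_num) (by norm_num)
  have a13 : P (1 / 15) (2) := go (h.Ui (1 / 10) (0) (by norm_num) a12) (by norm_num) (by norm_num)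
  have a14 : P (1 / 20) (0) := go (h.Ui (1 / 15) (2) (by norm_num) a13) (by norm_num) (by norm_num)
  have a15 : P (1 / 25) (2) := go (h.Ui (1 / 20) (0) (by norm_num) a14) (by norm_num) (by norm_num)
  have a16 : P (1 / 30) (0) := go (h.Ui (1 / 25) (2) (by norm_num) a15) (by norm_num) (by norm_num)
  have a17 : P (1 / 35) (2) := go (h.Ui (1 / 30) (0) (by norm_num) a16) (by norm_num) (by norm_num)
  have a18 : P (1 / 40) (0) := go (h.Ui (1 / 35) (2) (by norm_num) a17) (by norm_num) (by norm_num)
  have a19 : P (1 / 45) (2) := go (h.Ui (1 / 40) (0) (by norm_num) a18) (by norm_num) (by norm_num)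
  have a20 : P (1 / 50) (0) := go (h.Ui (1 / 45) (2) (by norm_num) a19) (by norm_num) (by norm_num)
  have a21 : P (1 / 55) (2) := go (h.Ui (1 / 50) (0) (by norm_num) a20) (by norm_num) (by norm_num)
  have a22 : P (1 / 60) (0) := go (h.Ui (1 / 55) (2) (by norm_num) a21) (by norm_num) (by norm_num)
  have a23 : P (1 / 65) (2) := go (h.Ui (1 / 60) (0) (by norm_num) a22) (by norm_num) (by norm_num)
  have a24 : P (66 / 65) (-2) := go (h.T (1 / 65) (2) a23) (by norm_num) (by norm_num)
  have a25 : P (11 / 10) (0) := go (h.T (1 / 10) (0) a12) (by norm_num) (by norm_num)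
  have a26 : P (11 / 65) (2) := go (h.Ui (11 / 10) (0) (by norm_num) a25) (by norm_num) (by norm_num)
  have a27 : P (76 / 65) (-2) := go (h.T (11 / 65) (2) a26) (by norm_num) (by norm_num)
  have a28 : P (-2 / 15) (1) := go (h.U (-2 / 5) (1) (by norm_num) h.m2) (by norm_num) (by norm_num)
  have a29 : P (19 / 40) (0) := go (h.e1 (-2 / 15) (1) (by norm_num) a28) (by norm_num) (by norm_num)
  have a30 : P (-21 / 40) (0) := go (h.Ti (19 / 40) (0) a29) (by norm_num) (by norm_num)
  have a31 : P (21 / 65) (2) := go (h.Ui (-21 / 40) (0) (by norm_num) a30) (by norm_num) (by norm_num)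
  have a32 : P (86 / 65) (-2) := go (h.T (21 / 65) (2) a31) (by norm_num) (by norm_num)
  have a33 : P (3 / 5) (-1) := go (h.T (-2 / 5) (1) h.m2) (by norm_num) (by norm_num)
  have a34 : P (-3 / 10) (3) := go (h.U (3 / 5) (-1) (by norm_num) a33) (by norm_num) (by norm_num)
  have a35 : P (-3 / 25) (-1) := go (h.U (-3 / 10) (3) (by norm_num) a34) (by norm_num) (by norm_num)
  have a36 : P (31 / 65) (2) := go (h.e1 (-3 / 25) (-1) (by norm_num) a35) (by norm_num) (by norm_num)
  have a37 : P (96 / 65) (-2) := go (h.T (31 / 65) (2) a36) (by norm_num) (by norm_num)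
  have a38 : P (3 / 10) (3) := go (h.Ui (-3 / 5) (-1) (by norm_num) a3) (by norm_num) (by norm_num)
  have a39 : P (-7 / 10) (-3) := go (h.Ti (3 / 10) (3) a38) (by norm_num) (by norm_num)
  have a40 : P (24 / 55) (4) := go (h.e1 (-7 / 10) (-3) (by norm_num) a39) (by norm_num) (by norm_num)
  have a41 : P (-24 / 65) (-2) := go (h.U (24 / 55) (4) (by norm_num) a40) (by norm_num) (by norm_num)
  have a42 : P (41 / 65) (2) := go (h.T (-24 / 65) (-2) a41) (by norm_num) (by norm_num)
  have a43 : P (106 / 65) (-2) := go (h.T (41 / 65) (2) a42) (by norm_num) (by norm_num)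
  have a44 : P (4 / 5) (-2) := go (h.T (-1 / 5) (2) h.m1) (by norm_num) (by norm_num)
  have a45 : P (9 / 5) (2) := go (h.T (4 / 5) (-2) a44) (by norm_num) (by norm_num)
  have a46 : P (14 / 5) (-2) := go (h.T (9 / 5) (2) a45) (by norm_num) (by norm_num)
  have a47 : P (-14 / 65) (4) := go (h.U (14 / 5) (-2) (by norm_num) a46) (by norm_num) (by norm_num)
  have a48 : P (51 / 65) (-4) := go (h.T (-14 / 65) (4) a47) (by norm_num) (by norm_num)
  have a49 : P (116 / 65) (4) := go (h.T (51 / 65) (-4) a48) (by norm_num) (by norm_num)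
  have a50 : P (-4 / 5) (-2) := go (h.Ti (1 / 5) (2) h.p1) (by norm_num) (by norm_num)
  have a51 : P (-4 / 25) (4) := go (h.U (-4 / 5) (-2) (by norm_num) a50) (by norm_num) (by norm_num)
  have a52 : P (-4 / 45) (-2) := go (h.U (-4 / 25) (4) (by norm_num) a51) (by norm_num) (by norm_num)
  have a53 : P (-4 / 65) (4) := go (h.U (-4 / 45) (-2) (by norm_num) a52) (by norm_num) (by norm_num)
  have a54 : P (61 / 65) (-4) := go (h.T (-4 / 65) (4) a53) (by norm_num) (by norm_num)
  have a55 : P (126 / 65) (4) := go (h.T (61 / 65) (-4) a54) (by norm_num) (by norm_num)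
  have a56 : P (6 / 5) (-2) := go (h.T (1 / 5) (2) h.p1) (by norm_num) (by norm_num)
  have a57 : P (6 / 35) (4) := go (h.Ui (6 / 5) (-2) (by norm_num) a56) (by norm_num) (by norm_num)
  have a58 : P (6 / 65) (-2) := go (h.Ui (6 / 35) (4) (by norm_num) a57) (by norm_num) (by norm_num)
  have a59 : P (71 / 65) (2) := go (h.T (6 / 65) (-2) a58) (by norm_num) (by norm_num)
  have a60 : P (136 / 65) (-2) := go (h.T (71 / 65) (2) a59) (by norm_num) (by norm_num)
  have a61 : P (-1 / 10) (0) := go (h.U (-1 / 5) (2) (by norm_num) h.m1) (by norm_num) (by norm_num)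
  have a62 : P (-1 / 15) (2) := go (h.U (-1 / 10) (0) (by norm_num) a61) (by norm_num) (by norm_num)
  have a63 : P (-16 / 15) (-2) := go (h.Ti (-1 / 15) (2) a62) (by norm_num) (by norm_num)
  have a64 : P (16 / 65) (4) := go (h.Ui (-16 / 15) (-2) (by norm_num) a63) (by norm_num) (by norm_num)
  have a65 : P (81 / 65) (-4) := go (h.T (16 / 65) (4) a64) (by norm_num) (by norm_num)
  have a66 : P (146 / 65) (4) := go (h.T (81 / 65) (-4) a65) (by norm_num) (by norm_num)
  have a67 : P (-3 / 20) (3) := go (h.U (-3 / 5) (-1) (by norm_num) a3) (by norm_num) (by norm_num)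
  have a68 : P (-3 / 35) (-1) := go (h.U (-3 / 20) (3) (by norm_num) a67) (by norm_num) (by norm_num)
  have a69 : P (-3 / 50) (3) := go (h.U (-3 / 35) (-1) (by norm_num) a68) (by norm_num) (by norm_num)
  have a70 : P (-3 / 65) (-1) := go (h.U (-3 / 50) (3) (by norm_num) a69) (by norm_num) (by norm_num)
  have a71 : P (62 / 65) (1) := go (h.T (-3 / 65) (-1) a70) (by norm_num) (by norm_num)
  have a72 : P (-7 / 5) (-1) := go (h.Ti (-2 / 5) (1) h.m2) (by norm_num) (by norm_num)
  have a73 : P (7 / 30) (3) := go (h.Ui (-7 / 5) (-1) (by norm_num) a72) (by norm_num) (by norm_num)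
  have a74 : P (7 / 65) (-1) := go (h.Ui (7 / 30) (3) (by norm_num) a73) (by norm_num) (by norm_num)
  have a75 : P (72 / 65) (1) := go (h.T (7 / 65) (-1) a74) (by norm_num) (by norm_num)
  have a76 : P (3 / 20) (3) := go (h.Ui (3 / 5) (-1) (by norm_num) a33) (by norm_num) (by norm_num)
  have a77 : P (-17 / 20) (-3) := go (h.Ti (3 / 20) (3) a76) (by norm_num) (by norm_num)
  have a78 : P (17 / 65) (5) := go (h.Ui (-17 / 20) (-3) (by norm_num) a77) (by norm_num) (by norm_num)
  have a79 : P (82 / 65) (-5) := go (h.T (17 / 65) (5) a78) (by norm_num) (by norm_num)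
  have a80 : P (-6 / 5) (-2) := go (h.Ti (-1 / 5) (2) h.m1) (by norm_num) (by norm_num)
  have a81 : P (-11 / 5) (2) := go (h.Ti (-6 / 5) (-2) a80) (by norm_num) (by norm_num)
  have a82 : P (27 / 65) (-1) := go (h.e1 (-11 / 5) (2) (by norm_num) a81) (by norm_num) (by norm_num)
  have a83 : P (92 / 65) (1) := go (h.T (27 / 65) (-1) a82) (by norm_num) (by norm_num)
  have a84 : P (9 / 10) (0) := go (h.T (-1 / 10) (0) a61) (by norm_num) (by norm_num)
  have a85 : P (-28 / 65) (1) := go (h.e2 (9 / 10) (0) (by norm_num) a84) (by norm_num) (by norm_num)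
  have a86 : P (37 / 65) (-1) := go (h.T (-28 / 65) (1) a85) (by norm_num) (by norm_num)
  have a87 : P (102 / 65) (1) := go (h.T (37 / 65) (-1) a86) (by norm_num) (by norm_num)
  have a88 : P (7 / 10) (-3) := go (h.T (-3 / 10) (3) a34) (by norm_num) (by norm_num)
  have a89 : P (-7 / 25) (5) := go (h.U (7 / 10) (-3) (by norm_num) a88) (by norm_num) (by norm_num)
  have a90 : P (18 / 25) (-5) := go (h.T (-7 / 25) (5) a89) (by norm_num) (by norm_num)
  have a91 : P (-18 / 65) (7) := go (h.U (18 / 25) (-5) (by norm_num) a90) (by norm_num) (by norm_num)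
  have a92 : P (47 / 65) (-7) := go (h.T (-18 / 65) (7) a91) (by norm_num) (by norm_num)
  have a93 : P (112 / 65) (7) := go (h.T (47 / 65) (-7) a92) (by norm_num) (by norm_num)
  have a94 : P (-7 / 15) (-1) := go (h.e2 (1 / 5) (2) (by norm_num) h.p1) (by norm_num) (by norm_num)
  have a95 : P (8 / 15) (1) := go (h.T (-7 / 15) (-1) a94) (by norm_num) (by norm_num)
  have a96 : P (-8 / 25) (1) := go (h.U (8 / 15) (1) (by norm_num) a95) (by norm_num) (by norm_num)
  have a97 : P (-8 / 65) (1) := go (h.U (-8 / 25) (1) (by norm_num) a96) (by norm_num) (by norm_num)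
  have a98 : P (57 / 65) (-1) := go (h.T (-8 / 65) (1) a97) (by norm_num) (by norm_num)
  have a99 : P (122 / 65) (1) := go (h.T (57 / 65) (-1) a98) (by norm_num) (by norm_num)
  have a100 : P (2 / 15) (1) := go (h.Ui (2 / 5) (1) (by norm_num) h.p2) (by norm_num) (by norm_num)
  have a101 : P (2 / 25) (1) := go (h.Ui (2 / 15) (1) (by norm_num) a100) (by norm_num) (by norm_num)
  have a102 : P (2 / 35) (1) := go (h.Ui (2 / 25) (1) (by norm_num) a101) (by norm_num) (by norm_num)
  have a103 : P (2 / 45) (1) := go (h.Ui (2 / 35) (1) (by norm_num) a102) (by norm_num) (by norm_num)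
  have a104 : P (2 / 55) (1) := go (h.Ui (2 / 45) (1) (by norm_num) a103) (by norm_num) (by norm_num)
  have a105 : P (2 / 65) (1) := go (h.Ui (2 / 55) (1) (by norm_num) a104) (by norm_num) (by norm_num)
  have a106 : P (67 / 65) (-1) := go (h.T (2 / 65) (1) a105) (by norm_num) (by norm_num)
  have a107 : P (132 / 65) (1) := go (h.T (67 / 65) (-1) a106) (by norm_num) (by norm_num)
  have a108 : P (7 / 5) (-1) := go (h.T (2 / 5) (1) h.p2) (by norm_num) (by norm_num)
  have a109 : P (12 / 5) (1) := go (h.T (7 / 5) (-1) a108) (by norm_num) (by norm_num)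
  have a110 : P (12 / 65) (1) := go (h.Ui (12 / 5) (1) (by norm_num) a109) (by norm_num) (by norm_num)
  have a111 : P (77 / 65) (-1) := go (h.T (12 / 65) (1) a110) (by norm_num) (by norm_num)
  have a112 : P (142 / 65) (1) := go (h.T (77 / 65) (-1) a111) (by norm_num) (by norm_num)
  have a113 : P (-22 / 45) (1) := go (h.e2 (1 / 20) (0) (by norm_num) a14) (by norm_num) (by norm_num)
  have a114 : P (22 / 65) (1) := go (h.Ui (-22 / 45) (1) (by norm_num) a113) (by norm_num) (by norm_num)
  have a115 : P (87 / 65) (-1) := go (h.T (22 / 65) (1) a114) (by norm_num) (by norm_num)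
  have a116 : P (152 / 65) (1) := go (h.T (87 / 65) (-1) a115) (by norm_num) (by norm_num)
  have a117 : P (-1 / 20) (0) := go (h.U (-1 / 15) (2) (by norm_num) a62) (by norm_num) (by norm_num)
  have a118 : P (-1 / 25) (2) := go (h.U (-1 / 20) (0) (by norm_num) a117) (by norm_num) (by norm_num)
  have a119 : P (-1 / 30) (0) := go (h.U (-1 / 25) (2) (by norm_num) a118) (by norm_num) (by norm_num)
  have a120 : P (32 / 65) (1) := go (h.e1 (-1 / 30) (0) (by norm_num) a119) (by norm_num) (by norm_num)
  have a121 : P (97 / 65) (-1) := go (h.T (32 / 65) (1) a120) (by norm_num) (by norm_num)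
  have a122 : P (162 / 65) (1) := go (h.T (97 / 65) (-1) a121) (by norm_num) (by norm_num)
  have a123 : P (-4 / 15) (4) := go (h.U (4 / 5) (-2) (by norm_num) a44) (by norm_num) (by norm_num)
  have a124 : P (23 / 50) (-3) := go (h.e1 (-4 / 15) (4) (by norm_num) a123) (by norm_num) (by norm_num)
  have a125 : P (-23 / 65) (5) := go (h.U (23 / 50) (-3) (by norm_num) a124) (by norm_num) (by norm_num)
  have a126 : P (42 / 65) (-5) := go (h.T (-23 / 65) (5) a125) (by norm_num) (by norm_num)
  have a127 : P (107 / 65) (5) := go (h.T (42 / 65) (-5) a126) (by norm_num) (by norm_num)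
  have a128 : P (172 / 65) (-5) := go (h.T (107 / 65) (5) a127) (by norm_num) (by norm_num)
  refine ⟨fun u => [0, -2, -2, -2, -2, -2, -2, -2, -2, 4, 4, -2, 4].getD u 0, fun u => [0, 1, 1, -5, 1, 1, 7, 1, 1, 1, 1, 1, -5].getD u 0, ?_, ?_, by decide +kernel, by decide +kernel⟩
  · intro u hu
    rw [Finset.mem_Icc] at hu
    obtain ⟨h1, h2⟩ := hu
    interval_cases u
    · exact go a2 (by norm_num) rfl
    · exact go a8 (by norm_num) rfl
    · exact go a11 (by norm_num) rfl
    · exact go a24 (by norm_num) rfl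
    · exact go a27 (by norm_num) rfl
    · exact go a32 (by norm_num) rfl
    · exact go a37 (by norm_num) rfl
    · exact go a43 (by norm_num) rfl
    · exact go a49 (by norm_num) rfl
    · exact go a55 (by norm_num) rfl
    · exact go a60 (by norm_num) rfl
    · exact go a66 (by norm_num) rfl
  · intro u hu
    rw [Finset.mem_Icc] at hu
    obtain ⟨h1, h2⟩ := hu
    interval_cases u
    · exact go a71 (by norm_num) rfl
    · exact go a75 (by norm_num) rfl
    · exact go a79 (by norm_num) rfl
    · exact go a83 (by norm_num) rfl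
    · exact go a87 (by norm_num) rfl
    · exact go a93 (by norm_num) rfl
    · exact go a99 (by norm_num) rfl
    · exact go a107 (by norm_num) rfl
    · exact go a112 (by norm_num) rfl
    · exact go a116 (by norm_num) rfl
    · exact go a122 (by norm_num) rfl
    · exact go a128 (by norm_num) rfl

end Pool.Agent.W97.V20
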