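import Pool.Agent.W97.V20.Formal
import Pool.Agent.W97.V20.RealP
import Pool.Agent.W97.V20.Vals
import Pool.Agent.W97.MT.Dim
import Pool.Agent.W45.V20.FORM
import Pool.Agent.W247.V20.DIM
import Pool.Agent.W237.V20.CP5
import Pool.Agent.W237.V20.HASSE
import Pool.Agent.W237.V20.MIN
import Pool.Agent.W237.V20.MULT
import Pool.Agent.W237.V20.SUBST
import Pool.Agent.W597.V20.SIX
import Pool.Agent.W417.V20.TWIST
import Pool.Agent.W417.V20.GRP
import Pool.Agent.W91.V20.RANK
import Pool.Agent.W75.V20.OMEGA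
import Pool.Agent.W839.V20.GAUSS
import Pool.Agent.W347.V20.DESC
import Pool.Agent.W349.MT.SUP
import Pool.Agent.W349.MT.HINT

/-!
The coefficients of the form and of the curve of conductor `20`.
-/

set_option autoImplicit false

open UpperHalfPlane MatrixGroups CongruenceSubgroup Filter Topology MeasureTheory
open scoped ModularForm Pointwise

namespace Pool.Agent.W97.V20

open Pool.Agent.W97.MT (S_QEXP Rep RepC Tr ap affCount prim qq qq_ne norm_qq_lt qParam_one)

lemma hqe : S_QEXP := Pool.Agent.W598.MT.s_qexp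
lemma hform : S_FORM := Pool.Agent.W45.V20.s_form
lemma hdim : S_DIM := Pool.Agent.W247.V20.s_dim
lemma hcp5 : S_CP5 := Pool.Agent.W237.V20.CP5.s_cp5
lemma hhasse : S_HASSE := Pool.Agent.W237.V20.HASSE.s_hasse
lemma hmin : S_MIN := Pool.Agent.W237.V20.MIN.s_min
lemma hmult : S_MULT := Pool.Agent.W237.V20.MULT.s_mult
lemma hsubst : S_SUBST := Pool.Agent.W237.V20.SUBST.s_subst
lemma hsix : S_SIX := Pool.Agent.W597.V20.s_six
lemma htwist : S_TWIST := Pool.Agent.W417.V20.TWIST.s_twist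
lemma hgrp : S_GRP := Pool.Agent.W417.V20.GRP.s_grp
lemma hrank : S_RANK := Pool.Agent.W91.V20.s_rank
lemma homega : S_OMEGA := Pool.Agent.W75.V20.s_omega
lemma hgauss : S_GAUSS := Pool.Agent.W839.V20.s_gauss
lemma hdesc : S_DESC := Pool.Agent.W347.V20.s_desc
lemma hsup : Pool.Agent.W97.MT.S_SUP := Pool.Agent.W349.MT.s_sup
lemma hhint : Pool.Agent.W97.MT.S_HINT := Pool.Agent.W349.MT.s_hint

/-- the newform `η(2z)² η(10z)²` -/
noncomputable def f20 : CuspForm (Gamma0 20 : Subgroup (GL (Fin 2) ℝ)) 2 := hform.choose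

lemma f20_apply (z : ℍ) : f20 z = gg (2 * z) := hform.choose_spec z

lemma f20_of {w : ℂ} (hw : 0 < w.im) : f20 (ofComplex w) = gg (2 * w) := by
  rw [f20_apply, ofComplex_apply_of_im_pos hw]

/-- the expansion of `kk` -/
noncomputable def KS : PowerSeries ℤ := (expansions5 hqe).choose

/-- the expansion of `g5` -/
noncomputable def GS : PowerSeries ℤ := (expansions5 hqe).choose_spec.choose

lemma S_spec : Rep kk KS ∧ Rep g5 GS ∧ Tr KS lk ∧ Tr GS lg :=
  (expansions5 hqe).choose_spec.choose_spec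

lemma cKS : PowerSeries.constantCoeff KS = 1 := by
  have := S_spec.2.2.1 0 (by norm_num)
  simpa [lk] using this

lemma cGS : PowerSeries.constantCoeff GS = 1 := by
  have := S_spec.2.2.2 0 (by norm_num)
  simpa [lg] using this

/-- the expansion of the form divided by `q` -/
noncomputable def P2 : PowerSeries ℤ := PowerSeries.expand 2 two_ne_zero GS

/-- the coefficients of the form -/
noncomputable def A (n : ℕ) : ℤ := PowerSeries.coeff n (PowerSeries.X * P2)

lemma A_zero : A 0 = 0 := by unfold A; simp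

lemma A_succ (n : ℕ) : A (n + 1) = PowerSeries.coeff n P2 := by
  unfold A; rw [PowerSeries.coeff_succ_X_mul]

lemma P2_even (n : ℕ) : PowerSeries.coeff (2 * n) P2 = PowerSeries.coeff n GS := by
  unfold P2; rw [PowerSeries.coeff_expand_mul]

lemma P2_odd {n : ℕ} (h : ¬ 2 ∣ n) : PowerSeries.coeff n P2 = 0 := by
  unfold P2; rw [PowerSeries.coeff_expand_of_not_dvd]; exact h

lemma A_one : A 1 = 1 := by
  rw [show (1 : ℕ) = 0 + 1 from rfl, A_succ, show (0 : ℕ) = 2 * 0 from rfl, P2_even,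
    S_spec.2.2.2 0 (by norm_num)]
  rfl

lemma A_two : A 2 = 0 := by
  rw [show (2 : ℕ) = 1 + 1 from rfl, A_succ, P2_odd (by norm_num)]

lemma A_three : A 3 = -2 := by
  rw [show (3 : ℕ) = 2 * 1 + 1 from rfl, A_succ, P2_even, S_spec.2.2.2 1 (by norm_num)]
  rfl

lemma A_five : A 5 = -1 := by
  rw [show (5 : ℕ) = 2 * 2 + 1 from rfl, A_succ, P2_even, S_spec.2.2.2 2 (by norm_num)]
  rfl

lemma hasSum_A {z : ℂ} (hz : 0 < z.im) :
    HasSum (fun n : ℕ => (A n : ℂ) * qq z ^ n) (gg (2 * z)) := by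
  have h1 := (Rep.X.mul (rep_phi2 S_spec.2.1 two_ne_zero)) (qq z) (norm_qq_lt hz)
  simp only [PowerSeries.coeff_map, eq_intCast] at h1
  rw [gg_q, show 2 * z / 2 = z by ring]
  exact h1

lemma coeff_f20 (n : ℕ) : (qExpansion 1 f20).coeff n = (A n : ℂ) := by
  have h1 := ModularFormClass.qExpansion_coeff_unique
    (Γ := (Gamma0 20 : Subgroup (GL (Fin 2) ℝ))) (k := 2)
    (c := fun n => (A n : ℂ)) one_pos TW.one_mem0
    (f := f20) (fun τ => by
      rw [f20_apply, qParam_one]
      simpa only [smul_eq_mul] using hasSum_A τ.im_pos) n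
  exact h1.symm

lemma hecke_f20 {p : ℕ} (hp : p.Prime) : (∀ z : ℍ, MT.hecke 20 p f20 z = (A p : ℂ) * f20 z) ∧
    ∀ n : ℕ, A (p * n) + (if p ∣ 20 then 0 else (p : ℤ)) * (if p ∣ n then A (n / p) else 0) =
      A p * A n := by
  obtain ⟨c, hc⟩ := hdim (TW.heckeForm f20 hp)
  have h1 : ∀ z : ℍ, TW.heckeT 20 2 p f20 z = c * f20 z := fun z => by
    rw [f20_apply]; exact hc z
  have hA : ∀ n, TW.A f20 n = (A n : ℂ) := coeff_f20
  have h2 : ∀ n : ℕ, ((A (p * n) + (if p ∣ 20 then 0 else (p : ℤ)) *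
      (if p ∣ n then A (n / p) else 0) : ℤ) : ℂ) = c * A n := by
    intro n
    have h3 := TW.hecke_rec f20 hp.pos h1 n
    unfold TW.B at h3
    simp only [hA] at h3
    rw [← h3]
    by_cases h4 : p ∣ 20 <;> by_cases h5 : p ∣ n
    · rw [if_pos h4, if_pos h5, if_pos h4, if_pos h5]
      push_cast
      ring
    · rw [if_pos h4, if_neg h5, if_pos h4, if_neg h5]
      push_cast
      ring
    · rw [if_neg h4, if_pos h5, if_neg h4, if_pos h5]
      push_cast
      norm_num
      ring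
    · rw [if_neg h4, if_neg h5, if_neg h4, if_neg h5]
      push_cast
      ring
  have hcA : c = A p := by
    have h3 := h2 1
    rw [mul_one, A_one, if_neg (c := p ∣ 1) (fun h => hp.one_lt.ne' (Nat.dvd_one.1 h)), mul_zero,
      add_zero, Int.cast_one, mul_one] at h3
    exact h3.symm
  constructor
  · intro z
    have h6 : MT.hecke 20 p f20 z = TW.heckeT 20 2 p f20 z := by
      unfold MT.hecke TW.heckeT
      norm_num
    rw [h6, h1, hcA]
  · intro n
    have h3 := h2 n
    rw [hcA] at h3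
    exact_mod_cast h3

lemma f20_line (x : ℂ) (hx : x.im = 0) : Set.EqOn
    (fun t : ℝ => f20 (ofComplex (x + t * Complex.I)))
    (fun t : ℝ => gg (2 * x + ((2 * t : ℝ) : ℂ) * Complex.I)) (Set.Ioi 0) := by
  intro t ht
  have ht' : 0 < t := ht
  have him : 0 < (x + t * Complex.I).im := by simp [hx, ht']
  dsimp only
  rw [f20_of him]
  congr 1
  push_cast
  ring

lemma prim_f20 (r : ℚ) : prim f20 (r : ℂ) = J (2 * r) := by
  unfold prim J
  rw [setIntegral_congr_fun measurableSet_Ioi (f20_line _ (by simp))]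
  have h1 := integral_comp_mul_left_Ioi (fun u : ℝ => gg (2 * (r : ℂ) + (u : ℂ) * Complex.I)) 0
    (two_pos : (0 : ℝ) < 2)
  rw [h1, mul_zero, Complex.real_smul]
  push_cast
  ring

lemma int_f20 (r : ℚ) :
    IntegrableOn (fun t : ℝ => f20 (ofComplex ((r : ℂ) + t * Complex.I))) (Set.Ioi 0) := by
  obtain ⟨n, hn, -⟩ := hdesc PP closed (2 * r)
  have h1 := hn.int
  push_cast at h1
  have h2 : IntegrableOn (fun t : ℝ => gg (2 * (r : ℂ) + ((2 * t : ℝ) : ℂ) * Complex.I))
      (Set.Ioi 0) := by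
    have h3 := integrableOn_Ioi_comp_mul_left_iff
      (fun u : ℝ => gg (2 * (r : ℂ) + (u : ℂ) * Complex.I)) 0 (two_pos : (0 : ℝ) < 2)
    rw [mul_zero] at h3
    exact h3.2 h1
  exact h2.congr_fun (f20_line _ (by simp)).symm measurableSet_Ioi

lemma dvd_20 {p : ℕ} (hp : p.Prime) (h2 : p ≠ 2) (h5 : p ≠ 5) : ¬ p ∣ 20 := by
  intro h
  have h1 : p ∣ 2 * (2 * 5) := by simpa using h
  rcases (Nat.Prime.dvd_mul hp).1 h1 with h3 | h3
  · exact h2 ((Nat.prime_dvd_prime_iff_eq hp Nat.prime_two).1 h3)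
  · rcases (Nat.Prime.dvd_mul hp).1 h3 with h4 | h4
    · exact h2 ((Nat.prime_dvd_prime_iff_eq hp Nat.prime_two).1 h4)
    · exact h5 ((Nat.prime_dvd_prime_iff_eq hp (by norm_num)).1 h4)

/-- the congruences for the coefficients -/
theorem A_mod {p : ℕ} (hp : p.Prime) (h2 : p ≠ 2) (h5 : p ≠ 5) :
    (2 : ℤ) ∣ A p ∧ (3 : ℤ) ∣ p + 1 - A p := by
  have h20 := dvd_20 hp h2 h5
  have h1 := hhint 20 p f20 (A p : ℂ) hp int_f20 (hecke_f20 hp).1 0
  rw [if_neg h20, prim_f20, prim_f20] at h1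
  simp only [mul_zero] at h1
  have hex : ∀ b : ℕ, ∃ n : ℤ, (prim f20 (((0 + b) / p : ℚ) : ℂ)).re = n * J0 ∧
      (3 : ℤ) ∣ n - 1 ∧ (b = 0 → n = 1) ∧
      (b ∈ Finset.Ico 1 p → (Odd n ↔ jacobiSym p 5 = 1)) := by
    intro b
    obtain ⟨n, hn, h3, h4⟩ := hdesc PP closed (2 * ((0 + b) / p))
    have hden : (((2 * ((0 + (b : ℚ)) / p) : ℚ).den : ℤ)) ∣ p := by
      have := Rat.den_dvd (2 * b : ℤ) (p : ℤ)
      rw [zero_add]
      rw [Rat.divInt_eq_div] at this
      push_cast at this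
      rwa [← mul_div_assoc]
    have hdenN : ((2 * ((0 + (b : ℚ)) / p) : ℚ).den) ∣ p := by exact_mod_cast hden
    have hnd : ∀ m : ℕ, m.Prime → p ≠ m → ¬ ((m : ℤ)) ∣ ((2 * ((0 + (b : ℚ)) / p) : ℚ).den : ℤ) := by
      intro m hm hpm h
      have h3 : (m : ℤ) ∣ p := h.trans hden
      have h4 : m ∣ p := by exact_mod_cast h3
      exact hpm ((Nat.prime_dvd_prime_iff_eq hm hp).1 h4).symm
    have hnum : (2 : ℤ) ∣ (2 * ((0 + (b : ℚ)) / p) : ℚ).num := by
      set x : ℚ := 2 * ((0 + (b : ℚ)) / p) with hx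
      have hp0 : (p : ℚ) ≠ 0 := by exact_mod_cast hp.ne_zero
      have h6 : (x.num : ℚ) * p = 2 * b * x.den := by
        have h7 : x * x.den = x.num := Rat.mul_den_eq_num x
        rw [← h7, hx]
        field_simp
        ring
      have h8 : x.num * p = 2 * b * x.den := by exact_mod_cast h6
      have h9 : (2 : ℤ) ∣ x.num * p := ⟨b * x.den, by rw [h8]; ring⟩
      rcases Int.Prime.dvd_mul' Nat.prime_two h9 with h10 | h10
      · exact_mod_cast h10
      · exfalso
        have h11 : 2 ∣ p := by exact_mod_cast h10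
        exact h2 ((Nat.prime_dvd_prime_iff_eq Nat.prime_two hp).1 h11).symm
    refine ⟨n, ?_, h4 (hnd 2 Nat.prime_two h2) hnum, ?_, ?_⟩
    · rw [prim_f20]; exact hn.re
    · intro hb
      have h6 := hn.re
      have h7 : (2 * ((0 + (b : ℚ)) / p) : ℚ) = 0 := by rw [hb]; simp
      rw [h7, J_zero, Complex.ofReal_re] at h6
      have h8 : J0 = n * J0 := h6
      have h9 := J0_pos
      have h10 : (n : ℝ) = 1 := by
        have h11 : ((n : ℝ) - 1) * J0 = 0 := by linarith
        rcases mul_eq_zero.1 h11 with h12 | h12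
        · linarith
        · exact absurd h12 h9.ne'
      exact_mod_cast h10
    · intro hb
      rw [Finset.mem_Ico] at hb
      have h6 := h3 (hnd 5 (by norm_num) h5)
      have h7 : (2 * ((0 + (b : ℚ)) / p) : ℚ).den = p := by
        rcases (Nat.dvd_prime hp).1 hdenN with h8 | h8
        · exfalso
          set x : ℚ := 2 * ((0 + (b : ℚ)) / p) with hx
          have hp0 : (p : ℚ) ≠ 0 := by exact_mod_cast hp.ne_zero
          have h9 : (x.num : ℚ) * p = 2 * b := by
            have h10 : x * x.den = x.num := Rat.mul_den_eq_num x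
            rw [h8] at h10
            rw [← h10, hx]
            push_cast
            field_simp
            ring
          have h11 : x.num * p = 2 * b := by exact_mod_cast h9
          have h12 : (p : ℤ) ∣ 2 * b := ⟨x.num, by rw [← h11]; ring⟩
          have h13 : p ∣ 2 * b := by exact_mod_cast h12
          rcases (Nat.Prime.dvd_mul hp).1 h13 with h14 | h14
          · exact h2 ((Nat.prime_dvd_prime_iff_eq hp Nat.prime_two).1 h14)
          · exact absurd (Nat.le_of_dvd (by omega) h14) (by omega)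
        · exact h8
      rw [h7] at h6
      exact h6
  choose n hn1 hn2 hn3 hn4 using hex
  -- the Hecke relation
  have hrel : A p = 1 + ∑ b ∈ Finset.range p, n b := by
    have h3 := congrArg Complex.re h1
    rw [Complex.add_re, Complex.re_sum, J_zero] at h3
    simp only [hn1] at h3
    rw [← Finset.sum_mul] at h3
    have h4 : ((A p : ℂ) * ((∫ u in Set.Ioi (0 : ℝ), gam u : ℝ) : ℂ)).re = A p * J0 := by
      rw [← Complex.ofReal_intCast, ← Complex.ofReal_mul, Complex.ofReal_re]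
      rfl
    rw [h4, Complex.ofReal_re] at h3
    have h5 : (A p : ℝ) * J0 = (1 + ∑ b ∈ Finset.range p, (n b : ℝ)) * J0 := by
      rw [h3, add_mul, one_mul]; rfl
    have h6 := mul_right_cancel₀ J0_pos.ne' h5
    exact_mod_cast h6
  have hsplit : ∑ b ∈ Finset.range p, n b = 1 + ∑ b ∈ Finset.Ico 1 p, n b := by
    rw [Finset.range_eq_Ico, Finset.sum_eq_sum_Ico_succ_bot hp.pos, hn3 0 rfl]
  have hodd : p % 2 = 1 := by
    rcases hp.eq_two_or_odd with h | h
    · exact absurd h h2
    · exact h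
  constructor
  · rw [hrel, hsplit]
    have hcard : (Finset.Ico 1 p).card = p - 1 := by simp
    have hpar : ((∑ b ∈ Finset.Ico 1 p, n b : ℤ) : ZMod 2) = 0 := by
      by_cases hj : jacobiSym p 5 = 1
      · have h3 : ∀ b ∈ Finset.Ico 1 p, ((n b : ℤ) : ZMod 2) = 1 := by
          intro b hb
          have h4 := (hn4 b hb).2 hj
          obtain ⟨k, hk⟩ := h4
          rw [hk]
          push_cast
          have : (2 : ZMod 2) = 0 := rfl
          rw [this]; ring
        push_cast
        rw [Finset.sum_congr rfl h3, Finset.sum_const, hcard]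
        obtain ⟨k, hk⟩ : ∃ k, p - 1 = 2 * k := ⟨(p - 1) / 2, by omega⟩
        rw [hk, nsmul_eq_mul, mul_one]
        push_cast
        have : (2 : ZMod 2) = 0 := rfl
        rw [this, zero_mul]
      · have h3 : ∀ b ∈ Finset.Ico 1 p, ((n b : ℤ) : ZMod 2) = 0 := by
          intro b hb
          have h4 : ¬ Odd (n b) := fun h => hj ((hn4 b hb).1 h)
          rw [Int.not_odd_iff_even] at h4
          obtain ⟨k, hk⟩ := h4
          rw [hk]
          push_cast
          have : (2 : ZMod 2) = 0 := rfl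
          rw [← two_mul, this, zero_mul]
        push_cast
        rw [Finset.sum_congr rfl h3, Finset.sum_const_zero]
    have h3 := (ZMod.intCast_zmod_eq_zero_iff_dvd _ 2).1 hpar
    push_cast at h3
    omega
  · have h3 : (3 : ℤ) ∣ ∑ b ∈ Finset.range p, (n b - 1) := Finset.dvd_sum fun b _ => hn2 b
    rw [Finset.sum_sub_distrib, Finset.sum_const, Finset.card_range, nsmul_eq_mul, mul_one] at h3
    rw [hrel]
    have h4 := (dvd_neg (α := ℤ)).2 h3
    have h5 : (p : ℤ) + 1 - (1 + ∑ b ∈ Finset.range p, n b) =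
        -(∑ b ∈ Finset.range p, n b - (p : ℤ)) := by ring
    rw [h5]
    exact h4

/-- modularity of the curve of conductor `20` -/
theorem A_eq {l : ℕ} (hl : l.Prime) : A l = ap E4 l := by
  obtain ⟨-, -, -, -, m2, m3, m5, mb⟩ := hmin
  by_cases l2 : l = 2
  · subst l2
    rw [A_two]; unfold ap; rw [m2]; rfl
  by_cases l3 : l = 3
  · subst l3
    rw [A_three]; unfold ap; rw [m3]; rfl
  by_cases l5 : l = 5
  · subst l5
    rw [A_five]; unfold ap; rw [m5]; rfl
  obtain ⟨a2, a3⟩ := A_mod hl l2 l5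
  have hne : ∃ z : ℍ, f20 z ≠ 0 := ⟨UpperHalfPlane.I, by
    rw [f20_apply]
    apply gg_ne
    have := UpperHalfPlane.I.im_pos
    simp⟩
  have hb : |A l| ≤ l + 1 := by
    have h1 := hsup 20 f20 hne l hl (A l) (hecke_f20 hl).1
    rw [Complex.norm_intCast] at h1
    exact_mod_cast h1
  have hmod : (l : ℤ) ∣ A l - ap E4 l := by
    have h1 := coeff_mod5 hcp5 hqe hhasse S_spec.1 S_spec.2.1 cKS cGS two_ne_zero hl l2
    have h0 : PowerSeries.coeff (l - 1) (PowerSeries.expand 2 two_ne_zero GS) = A l := by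
      obtain ⟨m, hm⟩ : ∃ m, l = m + 1 := ⟨l - 1, by have := hl.pos; omega⟩
      rw [hm, A_succ, Nat.add_sub_cancel]
      rfl
    rw [h0] at h1
    have h2 := (ZMod.intCast_eq_intCast_iff_dvd_sub _ _ _).1 h1
    have h3 := (dvd_neg (α := ℤ)).2 h2
    rwa [neg_sub] at h3
  have h6E : (6 : ℤ) ∣ l + 1 - ap E4 l := by
    have h1 := hsix l hl l2 l3 l5
    have h2 : ((6 : ℕ) : ℤ) ∣ ((affCount E4 l + 1 : ℕ) : ℤ) := Int.natCast_dvd_natCast.2 h1
    unfold ap
    push_cast at h2
    convert h2 using 1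
    ring
  have hodd : l % 2 = 1 := by
    rcases hl.eq_two_or_odd with h | h
    · exact absurd h l2
    · exact h
  have h6A : (6 : ℤ) ∣ l + 1 - A l := by omega
  have h6 : (6 : ℤ) ∣ A l - ap E4 l := by omega
  have hE : |ap E4 l| ≤ l := by
    have h1 := mb l hl
    unfold ap
    rw [abs_le]
    omega
  have hcop : IsCoprime (6 : ℤ) (l : ℤ) := by
    have h1 : Nat.Coprime 6 l := by
      rw [show 6 = 2 * 3 by norm_num]
      exact Nat.Coprime.mul_left ((Nat.coprime_primes Nat.prime_two hl).2 (Ne.symm l2))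
        ((Nat.coprime_primes Nat.prime_three hl).2 (Ne.symm l3))
    exact_mod_cast Nat.isCoprime_iff_coprime.2 h1
  obtain ⟨k, hk⟩ := hcop.mul_dvd h6 hmod
  have hA' := abs_le.1 hb
  have hE' := abs_le.1 hE
  have hk0 : k = 0 := by
    have h1 : |A l - ap E4 l| < 6 * l := by
      rw [abs_lt]
      have := hl.two_le
      constructor <;> [linarith [hA'.1, hE'.2]; linarith [hA'.2, hE'.1]]
    rw [hk, abs_mul, abs_of_pos (by have := hl.pos; positivity : (0 : ℤ) < 6 * l)] at h1
    have h2 : |k| < 1 := by nlinarith [abs_nonneg k]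
    exact Int.abs_lt_one_iff.1 h2
  rw [hk0, mul_zero] at hk
  linarith

end Pool.Agent.W97.V20
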