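import Pool.Agent.W97.MT.Defs

/-!
Definitions for the conjecture on the order of vanishing of the Mazur-Tate elements.
-/

set_option autoImplicit false

open UpperHalfPlane

namespace Pool.Agent.W97.V20

open Pool.Agent.W97.MT (prim IsGloballyMinimal affCount ap)

/-- `a_{p^k}(E)`: `a_1 = 1`, `a_p = p + 1 - #E(𝔽_p)` (for the reduction of the minimal equation,
with the point at infinity and the possible singular point) and
`a_{p^(k+2)} = a_p a_{p^(k+1)} - [p ∤ Δ] p a_{p^k}`. -/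
noncomputable def anPow (W : WeierstrassCurve ℤ) (p : ℕ) : ℕ → ℤ
  | 0 => 1
  | 1 => ap W p
  | k + 2 => ap W p * anPow W p (k + 1) - (if (p : ℤ) ∣ W.Δ then 0 else p) * anPow W p k

/-- The coefficients `a_n(E)` of the `L`-series of `E` (multiplicative in `n`). -/
noncomputable def an (W : WeierstrassCurve ℤ) (n : ℕ) : ℤ :=
  if n = 0 then 0 else n.factorization.prod fun p k => anPow W p k

/-- The newform attached to `E`: `f_E(z) = ∑ a_n(E) e^(2πinz)`. -/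
noncomputable def fE (W : WeierstrassCurve ℤ) (z : ℍ) : ℂ :=
  ∑' n : ℕ, (an W n : ℂ) * Complex.exp (2 * Real.pi * Complex.I * n * z)

/-- `(2y + a_1 x + a_3)² = 4x³ + b_2 x² + 2 b_4 x + b_6` -/
noncomputable def psi (W : WeierstrassCurve ℤ) (x : ℝ) : ℝ :=
  4 * x ^ 3 + W.b₂ * x ^ 2 + 2 * W.b₄ * x + W.b₆

/-- `Ω_E = ½ ∫_{E(ℝ)} |ω_E|` with `ω_E = dx / (2y + a_1 x + a_3)`; each `x` with `ψ(x) > 0` is the
`x`-coordinate of two real points, so this is `∫_{ψ(x) > 0} dx / √ψ(x)`. -/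
noncomputable def Omega (W : WeierstrassCurve ℤ) : ℝ :=
  ∫ x in {x : ℝ | 0 < psi W x}, (Real.sqrt (psi W x))⁻¹

/-- The plus modular symbol
`λ(a, b) = (πi / Ω_E) (∫_{i∞}^{a/b} f_E + ∫_{i∞}^{-a/b} f_E)`; here
`prim f r = 2πi ∫_{i∞}^{r} f`. -/
noncomputable def lam (W : WeierstrassCurve ℤ) (a b : ℤ) : ℂ :=
  (prim (fE W) ((a / b : ℚ) : ℂ) + prim (fE W) ((-(a / b) : ℚ) : ℂ)) / (2 * Omega W)

/-- `W` is a global minimal equation and has split multiplicative reduction at `p`. -/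
def IsSplit (W : WeierstrassCurve ℤ) (p : ℕ) : Prop :=
  (p : ℤ) ∣ W.Δ ∧ ¬ (p : ℤ) ∣ W.c₄ ∧ ap W p = 1

/-- `G_M = (ℤ/Mℤ)ˣ / ⟨-1⟩`. -/
abbrev GM (M : ℕ) : Type := (ZMod M)ˣ ⧸ Subgroup.zpowers (-1 : (ZMod M)ˣ)

/-- The smallest subring of `ℚ` containing all `λ(a, M)`, `a ∈ G_M`. -/
noncomputable def RM (W : WeierstrassCurve ℤ) (M : ℕ) : Subring ℚ :=
  Subring.closure {q : ℚ | ∃ a : (ZMod M)ˣ, (q : ℂ) = lam W (a : ZMod M).val M}

/-- The augmentation ideal of `R[G]`. -/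
noncomputable def aug (R : Type) [CommRing R] (G : Type) [CommGroup G] :
    Ideal (MonoidAlgebra R G) :=
  RingHom.ker (MonoidAlgebra.lift R R G (1 : G →* R)).toRingHom

/-- `θ` is the Mazur-Tate element `θ_M = ∑_{a ∈ G_M} λ(a, M) [a]`. -/
def IsTheta (W : WeierstrassCurve ℤ) (M : ℕ) (θ : MonoidAlgebra (RM W M) (GM M)) : Prop :=
  ∀ a : (ZMod M)ˣ, (((θ.coeff (QuotientGroup.mk a) : RM W M) : ℚ) : ℂ) = lam W (a : ZMod M).val M

/-- **Q1 (Mazur-Tate 1987).** `ord(θ_M) ≥ r + rk E(ℚ)`, that is `θ_M ∈ I^(r + k)` for all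
`k ≤ rk E(ℚ)`. -/
def OrderConjecture : Prop :=
  ∀ W : WeierstrassCurve ℤ, IsGloballyMinimal W → ∀ (S : Finset ℕ) (e : ℕ → ℕ),
    (∀ p ∈ S, p.Prime ∧ IsSplit W p ∧ 1 ≤ e p) → ∀ M : ℕ, M = ∏ p ∈ S, p ^ e p →
    ∀ θ : MonoidAlgebra (RM W M) (GM M), IsTheta W M θ → ∀ k : ℕ,
      (k : Cardinal) ≤ Module.rank ℤ (W.map (Int.castRingHom ℚ)).toAffine.Point →
      θ ∈ aug (RM W M) (GM M) ^ (S.card + k)

/-- The curve `y² = x³ - 143x² - 169x` (conductor `3380 = 2² · 5 · 13²`). -/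
def E13 : WeierstrassCurve ℤ := ⟨0, -143, 0, -169, 0⟩

/-- The curve `y² = x³ - 11x² - x` (conductor `20`). -/
def E4 : WeierstrassCurve ℤ := ⟨0, -11, 0, -1, 0⟩

end Pool.Agent.W97.V20
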