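import Pool.Agent.W97.MT.QX
import Pool.Agent.W97.V20.Stm

/-!
Expansions of the functions on `X_0(5)`.
-/

set_option autoImplicit false

open PowerSeries

namespace Pool.Agent.W97.V20

open Pool.Agent.W97.TW
open Pool.Agent.W97.MT (S_QEXP Rep Tr mulL addL subL thL dilL l1 tr_euler Q_ne Q_ne_pow num)

/-- the expansion of `(η(w)/η(5w))³ q^(1/2)` -/
noncomputable def kk (q : ℂ) : ℂ := Q q ^ 3 * (Q (q ^ 5) ^ 3)⁻¹

/-- the expansion of `η(w)²η(5w)² q^(-1/2)` -/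
noncomputable def g5 (q : ℂ) : ℂ := Q q ^ 2 * Q (q ^ 5) ^ 2

/-- list of `kk` -/
def lk : List ℤ := [1, -3, 0, 5, 0, 3, -16, 0, 15, 0, 18, -48, 0]

/-- list of `g5` -/
def lg : List ℤ := [1, -2, -1, 2, 1, 0, 2, 2, -6, -4, -4, 6, 1]

theorem expansions5 (hq : S_QEXP) : ∃ K P : ℤ⟦X⟧, Rep kk K ∧ Rep g5 P ∧ Tr K lk ∧ Tr P lg := by
  obtain ⟨φ, h1, hr, hx⟩ := hq
  have hR : Rep Q φ := fun q hq => by
    have := hr q hq
    simpa [Q] using this
  have t1 := tr_euler hx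
  have five : (5 : ℕ) ≠ 0 := by norm_num
  have r5 := hR.expand 5 five
  have t5 := t1.expand five
  set E5 := PowerSeries.expand 5 five φ with hE5
  have c5 : constantCoeff E5 = 1 := by rw [hE5]; simpa using h1
  have hinv : ∀ E : ℤ⟦X⟧, constantCoeff E = 1 → ∃ V : ℤ⟦X⟧, E * V = 1 := fun E hE => by
    have hu : IsUnit E := by
      rw [PowerSeries.isUnit_iff_constantCoeff, hE]; exact isUnit_one
    exact hu.exists_right_inv
  obtain ⟨V, hV⟩ := hinv (E5 ^ 3) (by rw [map_pow, c5, one_pow])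
  have i3 := (r5.pow 3).inv hV fun q hq => pow_ne_zero _ (Q_ne_pow hq five)
  refine ⟨φ ^ 3 * V, φ ^ 2 * E5 ^ 2, (hR.pow 3).mul i3, (hR.pow 2).mul (r5.pow 2), ?_, ?_⟩
  · refine Tr.cancel (W := E5 ^ 3) (b := Tr.powL l1 3) ?_ (t5.pow 3)
      (by rw [map_pow, c5]; norm_num) (by decide +kernel)
    refine (t1.pow 3).of_eq ?_
    linear_combination (-(φ ^ 3)) * hV
  · exact ((t1.pow 2).mul (t5.pow 2)).congr (by decide +kernel)

theorem identity_five {K P : ℤ⟦X⟧} (hK : Tr K lk) (hP : Tr P lg) : PowerSeries.X ^ 13 ∣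
    (PowerSeries.X * PowerSeries.derivative ℤ (K ^ 2) - K ^ 2) ^ 2 - P ^ 2 * ((K ^ 2) ^ 3 +
      22 * (PowerSeries.X * (K ^ 2) ^ 2) + 125 * (PowerSeries.X ^ 2 * K ^ 2)) := by
  refine Tr.dvd_of_zero ?_
  rw [num 22, num 125]
  refine Tr.congr ((((hK.pow 2).theta.sub (hK.pow 2)).pow 2).sub ((hP.pow 2).mul
    ((((hK.pow 2).pow 3).add ((Tr.C 22).mul (Tr.X.mul ((hK.pow 2).pow 2)))).add
    ((Tr.C 125).mul ((Tr.X.pow 2).mul (hK.pow 2)))))) ?_
  decide +kernel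

end Pool.Agent.W97.V20
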