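import Pool.Agent.W97.V20.Asm

/-!
The twist by `13` and the Mazur-Tate element.
-/

set_option autoImplicit false

open UpperHalfPlane MatrixGroups CongruenceSubgroup Filter Topology MeasureTheory
open scoped ModularForm Pointwise

namespace Pool.Agent.W97.V20

open Pool.Agent.W97.MT (S_QEXP Rep RepC Tr ap affCount prim qq qq_ne norm_qq_lt)

lemma jac_mul (a b : ℤ) : jacobiSym (a * b) 13 = jacobiSym a 13 * jacobiSym b 13 :=
  jacobiSym.mul_left a b 13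

lemma jac_sq {p : ℕ} (hp : p.Prime) (h : p ≠ 13) : jacobiSym p 13 * jacobiSym p 13 = 1 := by
  have h1 : IsCoprime ((p : ℤ)) 13 := by
    have := (Nat.coprime_primes hp (by norm_num : Nat.Prime 13)).2 h
    exact_mod_cast Nat.isCoprime_iff_coprime.2 this
  have h2 := jacobiSym.sq_one' (a := (p : ℤ)) (b := 13) (by
    exact_mod_cast Int.isCoprime_iff_gcd_eq_one.1 h1)
  rw [← jac_mul, ← sq]
  exact h2

lemma dvd_disc {p : ℕ} (hp : p.Prime) : (p : ℤ) ∣ E13.Δ ↔ p = 2 ∨ p = 5 ∨ p = 13 := by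
  rw [hmin.2.2.1]
  constructor
  · intro h
    have h1 : (p : ℤ) ∣ ((2 ^ 4 * 5 ^ 3 * 13 ^ 6 : ℕ) : ℤ) := by
      convert h using 1
      norm_num
    have h2 : p ∣ 2 ^ 4 * 5 ^ 3 * 13 ^ 6 := by exact_mod_cast h1
    rcases (Nat.Prime.dvd_mul hp).1 h2 with h3 | h3
    · rcases (Nat.Prime.dvd_mul hp).1 h3 with h4 | h4
      · exact Or.inl ((Nat.prime_dvd_prime_iff_eq hp Nat.prime_two).1 (hp.dvd_of_dvd_pow h4))
      · exact Or.inr (Or.inl ((Nat.prime_dvd_prime_iff_eq hp (by norm_num)).1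
          (hp.dvd_of_dvd_pow h4)))
    · exact Or.inr (Or.inr ((Nat.prime_dvd_prime_iff_eq hp (by norm_num)).1
        (hp.dvd_of_dvd_pow h3)))
  · rintro (rfl | rfl | rfl) <;> norm_num

/-- the coefficients of the twist -/
theorem an_eq (n : ℕ) : an E13 n = jacobiSym n 13 * A n := by
  by_cases hn : n = 0
  · subst hn
    rw [A_zero, mul_zero]
    unfold an
    rw [if_pos rfl]
  refine hmult E13 (fun n => jacobiSym n 13 * A n) ?_ ?_ ?_ n (Nat.pos_of_ne_zero hn)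
  · rw [A_one, Nat.cast_one, jacobiSym.one_left, mul_one]
  · intro p hp
    rw [htwist p hp, A_eq hp]
  · intro p hp n hn
    have h1 := (hecke_f20 hp).2 n
    have h2 := dvd_disc hp
    have h3 : A (p * n) = A p * A n - (if p ∣ 20 then 0 else (p : ℤ)) *
      (if p ∣ n then A (n / p) else 0) := by linarith
    rw [Nat.cast_mul, jac_mul, h3]
    by_cases h13 : p = 13
    · subst h13
      have h4 : jacobiSym ((13 : ℕ) : ℤ) 13 = 0 := by decide +kernel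
      rw [h4, if_pos (h2.2 (Or.inr (Or.inr rfl)))]
      simp
    · have hsq := jac_sq hp h13
      by_cases hd : (p : ℤ) ∣ E13.Δ
      · rw [if_pos hd]
        have h20 : p ∣ 20 := by
          rcases h2.1 hd with h | h | h
          · rw [h]; norm_num
          · rw [h]; norm_num
          · exact absurd h h13
        rw [if_pos h20]
        push_cast
        ring
      · rw [if_neg hd]
        have h20 : ¬ p ∣ 20 := dvd_20 hp (fun h => hd (h2.2 (Or.inl h)))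
          (fun h => hd (h2.2 (Or.inr (Or.inl h))))
        rw [if_neg h20]
        by_cases hpn : p ∣ n
        · obtain ⟨m, rfl⟩ := hpn
          rw [if_pos (dvd_mul_right p m), if_pos (dvd_mul_right p m),
            Nat.mul_div_cancel_left _ hp.pos, Nat.cast_mul, jac_mul]
          linear_combination (-(jacobiSym m 13 * p * A m)) * hsq
        · rw [if_neg hpn, if_neg hpn]
          ring

lemma qq_pow_eq (n : ℕ) (z : ℂ) : qq z ^ n = Complex.exp (2 * Real.pi * Complex.I * n * z) := by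
  unfold qq
  rw [← Complex.exp_nat_mul]
  congr 1
  ring

/-- the Gauss sum -/
noncomputable def tau : ℝ := hgauss.choose

lemma tau_sq : tau ^ 2 = 13 := hgauss.choose_spec.1

lemma tau_ne : (tau : ℂ) ≠ 0 := by
  intro h
  have h1 : tau = 0 := by exact_mod_cast h
  have := tau_sq
  rw [h1] at this
  norm_num at this

theorem fE_eq {z : ℂ} (hz : 0 < z.im) : fE E13 (ofComplex z) =
    (∑ u ∈ Finset.range 13, (jacobiSym u 13 : ℂ) * gg (2 * (z + u / 13))) / tau := by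
  have h1 := hgauss.choose_spec.2 A (fun z => gg (2 * z)) (fun z hz => by
    have := hasSum_A hz
    simp only [qq_pow_eq] at this
    exact this) z hz
  unfold fE
  rw [ofComplex_apply_of_im_pos hz]
  have h2 : (fun n : ℕ => ((an E13 n : ℤ) : ℂ) * Complex.exp (2 * Real.pi * Complex.I * n * z)) =
      fun n : ℕ => ((jacobiSym n 13 * A n : ℤ) : ℂ) *
        Complex.exp (2 * Real.pi * Complex.I * n * z) := by
    ext n
    rw [an_eq]
  change (∑' n : ℕ, ((an E13 n : ℤ) : ℂ) * Complex.exp (2 * Real.pi * Complex.I * n * z)) = _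
  rw [h2]
  exact h1.tsum_eq

/-- the character sum of the integrals -/
noncomputable def SS (x : ℚ) : ℂ :=
  ∑ u ∈ Finset.range 13, (jacobiSym u 13 : ℂ) * J (x + 2 * u / 13)

lemma prim_fE (r : ℚ) : prim (fE E13) (r : ℂ) = SS (2 * r) / tau := by
  have h1 : Set.EqOn (fun t : ℝ => fE E13 (ofComplex ((r : ℂ) + t * Complex.I)))
      (fun t : ℝ => (∑ u ∈ Finset.range 13, (jacobiSym u 13 : ℂ) *
        f20 (ofComplex (((r + u / 13 : ℚ) : ℂ) + t * Complex.I))) / tau) (Set.Ioi 0) := by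
    intro t ht
    have ht' : 0 < t := ht
    have him : 0 < ((r : ℂ) + t * Complex.I).im := by simpa using ht'
    dsimp only
    rw [fE_eq him]
    congr 1
    refine Finset.sum_congr rfl fun u _ => ?_
    have him2 : 0 < (((r + u / 13 : ℚ) : ℂ) + t * Complex.I).im := by simpa using ht'
    rw [f20_of him2]
    congr 2
    push_cast
    ring
  have h5 : (∫ t in Set.Ioi (0 : ℝ), ∑ u ∈ Finset.range 13, (jacobiSym u 13 : ℂ) *
        f20 (ofComplex (((r + u / 13 : ℚ) : ℂ) + t * Complex.I))) =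
      ∑ u ∈ Finset.range 13, ∫ t in Set.Ioi (0 : ℝ), (jacobiSym u 13 : ℂ) *
        f20 (ofComplex (((r + u / 13 : ℚ) : ℂ) + t * Complex.I)) :=
    integral_finsetSum _ (fun u _ => (int_f20 (r + u / 13)).const_mul _)
  unfold prim
  rw [setIntegral_congr_fun measurableSet_Ioi h1, integral_div, h5]
  have h2 : ∀ u : ℕ, ∫ t in Set.Ioi (0 : ℝ), (jacobiSym u 13 : ℂ) *
      f20 (ofComplex (((r + u / 13 : ℚ) : ℂ) + t * Complex.I)) =
      (jacobiSym u 13 : ℂ) * ∫ t in Set.Ioi (0 : ℝ),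
        f20 (ofComplex (((r + u / 13 : ℚ) : ℂ) + t * Complex.I)) := fun u =>
    integral_const_mul _ _
  simp only [h2]
  unfold SS
  rw [← mul_div_assoc, Finset.mul_sum]
  congr 1
  refine Finset.sum_congr rfl fun u _ => ?_
  have h3 := prim_f20 (r + u / 13)
  unfold prim at h3
  rw [mul_left_comm, h3]
  congr 2
  ring

lemma J_add_two (x : ℚ) : J (x + 2) = J x := by
  unfold J
  congr 1
  refine setIntegral_congr_fun measurableSet_Ioi fun t ht => ?_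
  have e : qq (((((x + 2 : ℚ) : ℂ)) + t * Complex.I) / 2) = qq (((x : ℂ) + t * Complex.I) / 2) := by
    unfold qq
    push_cast
    have : 2 * (Real.pi : ℂ) * Complex.I * (((x : ℂ) + 2 + t * Complex.I) / 2) =
        2 * Real.pi * Complex.I * (((x : ℂ) + t * Complex.I) / 2) + 2 * Real.pi * Complex.I := by
      ring
    rw [this, Complex.exp_add, Complex.exp_two_pi_mul_I, mul_one]
  rw [gg_q, gg_q, e]

lemma jac_refl : ∀ u ∈ Finset.Icc (1 : ℕ) 12, jacobiSym ((13 - u : ℕ) : ℤ) 13 = jacobiSym u 13 := by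
  decide +kernel

lemma SS_eq (x : ℚ) : SS x = ∑ u ∈ Finset.Icc (1 : ℕ) 12, (jacobiSym u 13 : ℂ) *
    J (x + 2 * u / 13) := by
  unfold SS
  rw [Finset.range_eq_Ico, Finset.sum_eq_sum_Ico_succ_bot (by norm_num)]
  have h0 : jacobiSym ((0 : ℕ) : ℤ) 13 = 0 := by decide +kernel
  rw [h0, Int.cast_zero, zero_mul, zero_add]
  rfl

lemma SS_conj (x : ℚ) : SS (-x) = starRingEnd ℂ (SS x) := by
  rw [SS_eq, SS_eq, map_sum]
  refine Finset.sum_nbij' (fun u => 13 - u) (fun u => 13 - u) ?_ ?_ ?_ ?_ ?_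
  · intro u hu
    rw [Finset.mem_Icc] at hu ⊢
    omega
  · intro u hu
    rw [Finset.mem_Icc] at hu ⊢
    omega
  · intro u hu
    rw [Finset.mem_Icc] at hu
    omega
  · intro u hu
    rw [Finset.mem_Icc] at hu
    omega
  · intro u hu
    have h1 := jac_refl u hu
    rw [Finset.mem_Icc] at hu
    rw [h1, map_mul, ← J_conj]
    have h2 : (starRingEnd ℂ) ((jacobiSym u 13 : ℤ) : ℂ) = ((jacobiSym u 13 : ℤ) : ℂ) :=
      map_intCast (starRingEnd ℂ) _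
    rw [h2]
    congr 1
    rw [← J_add_two (-(x + 2 * ((13 - u : ℕ) : ℚ) / 13))]
    congr 1
    rw [Nat.cast_sub (by omega)]
    push_cast
    ring

lemma sqrt13_pos : 0 < Real.sqrt 13 := Real.sqrt_pos.2 (by norm_num)

/-- the sign of the Gauss sum -/
lemma exists_sign : ∃ ε : ℤ, (ε = 1 ∨ ε = -1) ∧ Real.sqrt 13 = ε * tau := by
  have h1 : Real.sqrt 13 ^ 2 = tau ^ 2 := by rw [tau_sq, Real.sq_sqrt (by norm_num)]
  rcases sq_eq_sq_iff_eq_or_eq_neg.1 h1 with h | h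
  · exact ⟨1, Or.inl rfl, by rw [h]; simp⟩
  · exact ⟨-1, Or.inr rfl, by rw [h]; simp⟩

/-- the modular symbols -/
theorem lam_eq (a : ℤ) {ε : ℤ} (hε : Real.sqrt 13 = ε * tau) {v : ℕ → ℤ}
    (hv : ∀ u ∈ Finset.Icc (1 : ℕ) 12, PP (2 * (a / 5) + 2 * (u : ℚ) / 13) (v u)) :
    2 * lam E13 a 5 = ε * ∑ u ∈ Finset.Icc (1 : ℕ) 12, jacobiSym u 13 * v u := by
  have h1 : ((a : ℚ) / (5 : ℤ) : ℚ) = a / 5 := by norm_num
  unfold lam
  rw [h1, prim_fE, prim_fE, mul_neg, SS_conj, omega_eq hcp5 hqe hsubst homega]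
  have h2 : (SS (2 * (a / 5))).re = (∑ u ∈ Finset.Icc (1 : ℕ) 12, jacobiSym u 13 * v u : ℤ) * J0 := by
    rw [SS_eq, Complex.re_sum, Int.cast_sum, Finset.sum_mul]
    refine Finset.sum_congr rfl fun u hu => ?_
    rw [← Complex.ofReal_intCast, Complex.re_ofReal_mul, (hv u hu).re]
    push_cast
    try ring
  have h3 : SS (2 * (a / 5)) + starRingEnd ℂ (SS (2 * (a / 5))) =
      ((2 * (SS (2 * (a / 5))).re : ℝ) : ℂ) := by
    rw [Complex.add_conj]
  have hτ := tau_ne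
  have hJ : (J0 : ℂ) ≠ 0 := by exact_mod_cast J0_pos.ne'
  have hs : ((Real.sqrt 13 : ℝ) : ℂ) ≠ 0 := by exact_mod_cast sqrt13_pos.ne'
  have hεC : ((Real.sqrt 13 : ℝ) : ℂ) = ε * tau := by rw [hε]; push_cast; rfl
  rw [← add_div, h3, h2]
  push_cast
  rw [hεC] at hs ⊢
  have hε0 : (ε : ℂ) ≠ 0 := left_ne_zero_of_mul hs
  field_simp

lemma SS_add_two (x : ℚ) : SS (x + 2) = SS x := by
  unfold SS
  refine Finset.sum_congr rfl fun u _ => ?_
  rw [← J_add_two (x + 2 * u / 13)]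
  congr 2
  ring

lemma lam_neg (a : ℤ) : lam E13 (-a) 5 = lam E13 a 5 := by
  unfold lam
  have h : ((-a : ℤ) : ℚ) / ((5 : ℤ) : ℚ) = -((a : ℚ) / ((5 : ℤ) : ℚ)) := by
    push_cast
    ring
  rw [h, neg_neg, add_comm]

lemma lam_add (a : ℤ) : lam E13 (a + 5) 5 = lam E13 a 5 := by
  unfold lam
  have h : ((a + 5 : ℤ) : ℚ) / ((5 : ℤ) : ℚ) = ((a : ℚ) / ((5 : ℤ) : ℚ)) + 1 := by
    push_cast
    ring
  have h1 : 2 * ((a : ℚ) / ((5 : ℤ) : ℚ) + 1) = 2 * ((a : ℚ) / ((5 : ℤ) : ℚ)) + 2 := by ring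
  rw [h, prim_fE, prim_fE, prim_fE, prim_fE, mul_neg, mul_neg, SS_conj, SS_conj, h1, SS_add_two]

theorem lam_vals : ∃ ε : ℤ, (ε = 1 ∨ ε = -1) ∧ lam E13 1 5 = ((9 * ε : ℤ) : ℂ) ∧
    lam E13 2 5 = ((-(9 * ε) : ℤ) : ℂ) ∧ lam E13 3 5 = ((-(9 * ε) : ℤ) : ℂ) ∧
    lam E13 4 5 = ((9 * ε : ℤ) : ℂ) := by
  obtain ⟨ε, h1, hε⟩ := exists_sign
  obtain ⟨v, w, hv, hw, sv, sw⟩ := s_vals PP closed
  have e1 : lam E13 1 5 = ((9 * ε : ℤ) : ℂ) := by
    have h := lam_eq 1 hε (v := v) (fun u hu => by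
      have h2 : (2 * (((1 : ℤ) : ℚ) / 5) + 2 * (u : ℚ) / 13 : ℚ) = 2 / 5 + 2 * (u : ℚ) / 13 := by
        push_cast
        ring
      rw [h2]
      exact hv u hu)
    rw [sv] at h
    push_cast at h ⊢
    linear_combination h / 2
  have e2 : lam E13 2 5 = ((-(9 * ε) : ℤ) : ℂ) := by
    have h := lam_eq 2 hε (v := w) (fun u hu => by
      have h2 : (2 * (((2 : ℤ) : ℚ) / 5) + 2 * (u : ℚ) / 13 : ℚ) = 4 / 5 + 2 * (u : ℚ) / 13 := by
        push_cast
        ring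
      rw [h2]
      exact hw u hu)
    rw [sw] at h
    push_cast at h ⊢
    linear_combination h / 2
  refine ⟨ε, h1, e1, e2, ?_, ?_⟩
  · have h2 := lam_add (-2)
    rw [lam_neg, e2] at h2
    exact h2
  · have h2 := lam_add (-1)
    rw [lam_neg, e1] at h2
    exact h2

/-- the sign of a residue class -/
def chi (a : (ZMod 5)ˣ) : ℤ := if a ^ 2 = 1 then 1 else -1

lemma units_cases : ∀ a : (ZMod 5)ˣ, ((a : ZMod 5).val = 1 ∧ chi a = 1) ∨
    ((a : ZMod 5).val = 2 ∧ chi a = -1) ∨ ((a : ZMod 5).val = 3 ∧ chi a = -1) ∨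
    ((a : ZMod 5).val = 4 ∧ chi a = 1) := by
  decide +kernel

lemma lam_unit {ε : ℤ} (h1 : lam E13 1 5 = ((9 * ε : ℤ) : ℂ))
    (h2 : lam E13 2 5 = ((-(9 * ε) : ℤ) : ℂ)) (h3 : lam E13 3 5 = ((-(9 * ε) : ℤ) : ℂ))
    (h4 : lam E13 4 5 = ((9 * ε : ℤ) : ℂ)) (a : (ZMod 5)ˣ) :
    lam E13 ((a : ZMod 5).val : ℤ) ((5 : ℕ) : ℤ) = ((9 * ε * chi a : ℤ) : ℂ) := by
  rcases units_cases a with ⟨e1, e2⟩ | ⟨e1, e2⟩ | ⟨e1, e2⟩ | ⟨e1, e2⟩
  · rw [e1, e2, mul_one]
    exact h1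
  · rw [e1, e2, mul_neg, mul_one]
    exact h2
  · rw [e1, e2, mul_neg, mul_one]
    exact h3
  · rw [e1, e2, mul_one]
    exact h4

lemma RM_int {ε : ℤ} (h : ∀ a : (ZMod 5)ˣ,
    lam E13 ((a : ZMod 5).val : ℤ) ((5 : ℕ) : ℤ) = ((9 * ε * chi a : ℤ) : ℂ)) :
    ∀ x ∈ RM E13 5, ∃ n : ℤ, x = n := by
  have h1 : RM E13 5 ≤ (Int.castRingHom ℚ).range := by
    unfold RM
    rw [Subring.closure_le]
    rintro q ⟨a, ha⟩
    rw [h a] at ha
    refine ⟨9 * ε * chi a, ?_⟩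
    have : (q : ℂ) = (((9 * ε * chi a : ℤ) : ℚ) : ℂ) := by
      rw [ha]
      push_cast
      rfl
    exact (Rat.cast_injective this).symm
  intro x hx
  obtain ⟨n, hn⟩ := h1 hx
  exact ⟨n, hn.symm⟩

lemma chi_out (a : (ZMod 5)ˣ) : chi (Quotient.out (QuotientGroup.mk a : GM 5)) = chi a := by
  have h1 : (QuotientGroup.mk (Quotient.out (QuotientGroup.mk a : GM 5)) : GM 5) =
      QuotientGroup.mk a := Quotient.out_eq _
  have h2 := QuotientGroup.eq.1 h1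
  obtain ⟨k, hk⟩ := Subgroup.mem_zpowers_iff.1 h2
  set b := Quotient.out (QuotientGroup.mk a : GM 5)
  have h3 : (b⁻¹ * a) ^ 2 = 1 := by
    rw [← hk, ← zpow_natCast, ← zpow_mul, mul_comm, zpow_mul]
    simp
  have h4 : b ^ 2 = a ^ 2 := by
    rw [mul_pow, inv_pow, inv_mul_eq_one] at h3
    exact h3
  unfold chi
  rw [h4]

theorem exists_theta {ε : ℤ} (h : ∀ a : (ZMod 5)ˣ,
    lam E13 ((a : ZMod 5).val : ℤ) ((5 : ℕ) : ℤ) = ((9 * ε * chi a : ℤ) : ℂ)) :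
    ∃ θ : MonoidAlgebra (RM E13 5) (GM 5), IsTheta E13 5 θ := by
  have hmem : ∀ a : (ZMod 5)ˣ, ((9 * ε * chi a : ℤ) : ℚ) ∈ RM E13 5 := fun a =>
    Subring.subset_closure ⟨a, by
      rw [h a]
      push_cast
      rfl⟩
  refine ⟨MonoidAlgebra.ofCoeff (Finsupp.equivFunOnFinite.symm fun g : GM 5 =>
    ⟨((9 * ε * chi (Quotient.out g) : ℤ) : ℚ), hmem _⟩), ?_⟩
  intro a
  rw [h a]
  change ((((9 * ε * chi (Quotient.out (QuotientGroup.mk a : GM 5)) : ℤ) : ℚ)) : ℂ) = _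
  rw [chi_out]
  push_cast
  rfl

theorem not_mem {ε : ℤ} (hε : ε = 1 ∨ ε = -1) (h : ∀ a : (ZMod 5)ˣ,
    lam E13 ((a : ZMod 5).val : ℤ) ((5 : ℕ) : ℤ) = ((9 * ε * chi a : ℤ) : ℂ))
    (θ : MonoidAlgebra (RM E13 5) (GM 5)) (hθ : IsTheta E13 5 θ) :
    θ ∉ aug (RM E13 5) (GM 5) ^ 2 := by
  intro hm
  obtain ⟨m, hm⟩ := hgrp (RM E13 5) (RM_int h) θ hm
  have h1 := hθ 1
  rw [h 1] at h1
  have h2 : (QuotientGroup.mk (1 : (ZMod 5)ˣ) : GM 5) = 1 := rfl
  rw [h2, hm] at h1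
  have h3 : chi 1 = 1 := by decide
  rw [h3] at h1
  have h4 : (2 * m : ℤ) = 9 * ε * 1 := by exact_mod_cast h1
  omega

theorem not_conj (θ : MonoidAlgebra (RM E13 5) (GM 5)) (hθ : IsTheta E13 5 θ)
    (hn : θ ∉ aug (RM E13 5) (GM 5) ^ 2) : ¬ OrderConjecture := by
  intro hc
  refine hn ?_
  have h := hc E13 hmin.1 {5} (fun _ => 1) (fun p hp => by
    rw [Finset.mem_singleton] at hp
    subst hp
    exact ⟨by norm_num, hmin.2.2.2.1, le_rfl⟩) 5 (by simp) θ hθ 1 (by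
      rw [Nat.cast_one]
      exact hrank)
  simpa using h

end Pool.Agent.W97.V20
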