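import Pool.Agent.W97.V20.Ident5

/-!
The coefficients modulo primes.
-/

set_option autoImplicit false

open PowerSeries

namespace Pool.Agent.W97.V20

open Pool.Agent.W97.MT (S_QEXP Rep RepC Tr ap)

/-- the third function -/
theorem exists_V (hcp : S_CP5) (hq : S_QEXP) {K P : ℤ⟦X⟧} (rK : Rep kk K) (rP : Rep g5 P)
    (cK : constantCoeff K = 1) (cP : constantCoeff P = 1) :
    ∃ V : ℤ⟦X⟧, constantCoeff V = 1 ∧ P * V = K - 2 * (X * derivative ℤ K) ∧
      V ^ 2 = K ^ 4 + 22 * X * K ^ 2 + 125 * X ^ 2 := by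
  have h := formal5 hcp hq rK rP
  have hK0 : K ≠ 0 := fun h0 => by rw [h0, map_zero] at cK; exact zero_ne_one cK
  have hP0 : P ≠ 0 := fun h0 => by rw [h0, map_zero] at cP; exact zero_ne_one cP
  have hd : derivative ℤ (K ^ 2) = 2 * K * derivative ℤ K := by
    rw [Derivation.leibniz_pow]
    simp [nsmul_eq_mul, smul_eq_mul]
    ring
  rw [hd] at h
  have h1 : (K - 2 * (X * derivative ℤ K)) ^ 2 = P ^ 2 * (K ^ 4 + 22 * X * K ^ 2 + 125 * X ^ 2) := by
    apply mul_left_cancel₀ (pow_ne_zero 2 hK0)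
    linear_combination h
  have hu : IsUnit P := by
    rw [PowerSeries.isUnit_iff_constantCoeff, cP]; exact isUnit_one
  obtain ⟨Pi, hPi⟩ := hu.exists_right_inv
  refine ⟨(K - 2 * (X * derivative ℤ K)) * Pi, ?_, ?_, ?_⟩
  · have h2 := congrArg constantCoeff hPi
    rw [map_mul, cP, one_mul, map_one] at h2
    rw [map_mul, h2, map_sub, map_mul, map_mul, cK, constantCoeff_X]
    ring
  · linear_combination (K - 2 * (X * derivative ℤ K)) * hPi
  · apply mul_left_cancel₀ (pow_ne_zero 2 hP0)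
    linear_combination h1 + (K - 2 * (X * derivative ℤ K)) ^ 2 * (P * Pi + 1) * hPi

lemma theta_expand (K : ℤ⟦X⟧) (two : (2 : ℕ) ≠ 0) :
    X * derivative ℤ (PowerSeries.expand 2 two K) =
      2 * PowerSeries.expand 2 two (X * derivative ℤ K) := by
  have hth : ∀ A : ℤ⟦X⟧, ∀ n : ℕ, coeff n (X * derivative ℤ A) = n * coeff n A := by
    intro A n
    cases n with
    | zero => simp
    | succ n =>
      rw [coeff_succ_X_mul, coeff_derivative]
      push_cast
      ring
  ext n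
  rw [hth, show (2 : ℤ⟦X⟧) = PowerSeries.C (2 : ℤ) by rw [map_ofNat], coeff_C_mul]
  by_cases h : 2 ∣ n
  · obtain ⟨m, rfl⟩ := h
    rw [coeff_expand_mul, coeff_expand_mul, hth]
    push_cast
    ring
  · have h1 : ∀ A : ℤ⟦X⟧, coeff n (PowerSeries.expand 2 two A) = 0 := fun A => by
      rw [coeff_expand_of_not_dvd]
      exact h
    rw [h1, h1]
    ring

lemma rep_phi2 {P : ℤ⟦X⟧} (rP : Rep g5 P) (two : (2 : ℕ) ≠ 0) :
    Rep phi2 (PowerSeries.expand 2 two P) := by
  refine (rP.expand 2 two).congr fun q _ => ?_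
  unfold phi2 g5
  ring_nf

lemma th_mul {R : Type*} [CommRing R] (A B : R⟦X⟧) : X * derivative R (A * B) =
    A * (X * derivative R B) + B * (X * derivative R A) := by
  rw [Derivation.leibniz, smul_eq_mul, smul_eq_mul]
  ring

lemma th_pow {R : Type*} [CommRing R] (A : R⟦X⟧) (n : ℕ) : X * derivative R (A ^ n) =
    (n : R⟦X⟧) * A ^ (n - 1) * (X * derivative R A) := by
  rw [Derivation.leibniz_pow]
  simp only [nsmul_eq_mul, smul_eq_mul]
  ring

/-- the coefficient modulo `p` -/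
theorem coeff_mod5 (hcp : S_CP5) (hq : S_QEXP) (hasse : S_HASSE) {K P : ℤ⟦X⟧} (rK : Rep kk K)
    (rP : Rep g5 P) (cK : constantCoeff K = 1) (cP : constantCoeff P = 1) (two : (2 : ℕ) ≠ 0)
    {p : ℕ} (hp : p.Prime) (hp2 : p ≠ 2) :
    ((coeff (p - 1) (PowerSeries.expand 2 two P) : ℤ) : ZMod p) = (ap E4 p : ZMod p) := by
  have : Fact p.Prime := ⟨hp⟩
  obtain ⟨V, cV, h1, h2⟩ := exists_V hcp hq rK rP cK cP
  have e1 := congrArg (PowerSeries.expand 2 two) h1
  have e2 := congrArg (PowerSeries.expand 2 two) h2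
  have e3 := theta_expand K two
  have hX : PowerSeries.expand 2 two (X : ℤ⟦X⟧) = X ^ 2 := PowerSeries.expand_X _ _
  rw [map_mul, map_sub, map_mul, map_ofNat, ← e3] at e1
  rw [map_pow, map_add, map_add, map_mul, map_mul, map_mul, map_pow, map_pow, map_pow, hX,
    map_ofNat, map_ofNat] at e2
  set K2 := PowerSeries.expand 2 two K with hK2
  set P2 := PowerSeries.expand 2 two P with hP2
  set V2 := PowerSeries.expand 2 two V with hV2
  have cV2 : constantCoeff V2 = 1 := by rw [hV2]; simpa using cV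
  have cK2 : constantCoeff K2 = 1 := by rw [hK2]; simpa using cK
  set m := PowerSeries.map (Int.castRingHom (ZMod p)) with hm
  have hmX : m X = X := PowerSeries.map_X _
  have hd : m (derivative ℤ K2) = derivative (ZMod p) (m K2) := by
    ext n
    simp [hm, coeff_derivative]
  have f1 := congrArg m e1
  have f2 := congrArg m e2
  simp only [map_sub, map_add, map_mul, map_pow, hmX, hd, map_ofNat] at f1 f2
  have hcc : ∀ V : ℤ⟦X⟧, constantCoeff (m V) = ((constantCoeff V : ℤ) : ZMod p) := by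
    intro V
    rw [← coeff_zero_eq_constantCoeff_apply, ← coeff_zero_eq_constantCoeff_apply,
      hm, coeff_map]
    simp
  have h20 : (2 : ZMod p) ≠ 0 := by
    intro h
    have h3 : ((2 : ℕ) : ZMod p) = 0 := by exact_mod_cast h
    have h4 := (ZMod.natCast_eq_zero_iff 2 p).1 h3
    exact hp2 ((Nat.prime_dvd_prime_iff_eq hp Nat.prime_two).1 h4)
  set k := m K2 with hk
  set v := m V2 with hv
  set f := m P2 with hf
  have ck : constantCoeff k = 1 := by rw [hk, hcc, cK2]; simp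
  have cv : constantCoeff v = 1 := by rw [hv, hcc, cV2]; simp
  have hv0 : v ≠ 0 := fun h0 => by rw [h0, map_zero] at cv; exact zero_ne_one cv
  -- the half
  have hhalf : (2 : (ZMod p)⟦X⟧) * PowerSeries.C (2⁻¹ : ZMod p) = 1 := by
    rw [show (2 : (ZMod p)⟦X⟧) = PowerSeries.C (2 : ZMod p) by rw [map_ofNat], ← map_mul,
      mul_inv_cancel₀ h20, map_one]
  set ha : (ZMod p)⟦X⟧ := PowerSeries.C (2⁻¹ : ZMod p) with hha
  set xi : (ZMod p)⟦X⟧ := ha * (v + k ^ 2 + 11 * X ^ 2) with hxi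
  have x2 : 2 * xi = v + k ^ 2 + 11 * X ^ 2 := by
    rw [hxi]
    linear_combination (v + k ^ 2 + 11 * X ^ 2) * hhalf
  have h20' : (2 : (ZMod p)⟦X⟧) ≠ 0 := fun h0 => by
    rw [h0, zero_mul] at hhalf
    exact zero_ne_one hhalf
  have h40 : (4 : (ZMod p)⟦X⟧) ≠ 0 := by
    rw [show (4 : (ZMod p)⟦X⟧) = 2 * 2 by norm_num]
    exact mul_ne_zero h20' h20'
  -- the quadratic equation
  have hquad : xi ^ 2 - xi * (k ^ 2 + 11 * X ^ 2) - X ^ 4 = 0 := by
    apply mul_left_cancel₀ h40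
    have h5 : (2 * xi - (k ^ 2 + 11 * X ^ 2)) ^ 2 = v ^ 2 := by rw [x2]; ring
    linear_combination h5 + f2
  have hder := congrArg (fun s => X * derivative (ZMod p) s) hquad
  have t1 := th_pow k 2
  have t2 := th_pow xi 2
  have t3 := th_pow (X : (ZMod p)⟦X⟧) 2
  have t4 := th_pow (X : (ZMod p)⟦X⟧) 4
  have t5 : X * derivative (ZMod p) (X : (ZMod p)⟦X⟧) = X := by rw [derivative_X, mul_one]
  have h11 : (11 : (ZMod p)⟦X⟧) = PowerSeries.C (11 : ZMod p) := by rw [map_ofNat]
  have t6 : X * derivative (ZMod p) ((11 : (ZMod p)⟦X⟧) * X ^ 2) =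
      11 * (X * derivative (ZMod p) (X ^ 2)) := by
    rw [th_mul, h11, derivative_C]
    ring
  have t7 : X * derivative (ZMod p) (xi ^ 2 - xi * (k ^ 2 + 11 * X ^ 2) - X ^ 4) =
      X * derivative (ZMod p) (xi ^ 2) - (xi * (X * derivative (ZMod p) (k ^ 2) +
      X * derivative (ZMod p) ((11 : (ZMod p)⟦X⟧) * X ^ 2)) + (k ^ 2 + 11 * X ^ 2) *
      (X * derivative (ZMod p) xi)) - X * derivative (ZMod p) (X ^ 4) := by
    rw [map_sub, map_sub, mul_sub, mul_sub, th_mul, map_add, mul_add]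
  rw [t7, map_zero, mul_zero, t2, t6, t1, t3, t4, t5] at hder
  norm_num at hder
  have hσ := hasse p hp2 f xi (-2 * k * xi) ?_ ?_ ?_ ?_
  · rw [← hσ, hf, hm, coeff_map]
    simp
  · rw [hxi, map_mul, map_add, map_add, map_mul, map_pow, map_pow, ck, cv, constantCoeff_X, hha,
      constantCoeff_C]
    norm_num
    exact inv_mul_cancel₀ h20
  · rw [map_mul, map_mul, ck, hxi, map_mul, map_add, map_add, map_mul, map_pow, map_pow, ck, cv,
      constantCoeff_X, hha, constantCoeff_C]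
    norm_num
    rw [inv_mul_cancel₀ h20, mul_one]
    exact map_ofNat _ 2
  · apply mul_left_cancel₀ hv0
    linear_combination (2 * k * xi) * f1 - (X * derivative (ZMod p) xi - 2 * xi) * x2 + hder -
      4 * hquad
  · linear_combination (-4 * xi) * hquad

end Pool.Agent.W97.V20
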