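import Pool.Agent.W97.MT.Prim
import Pool.Agent.W97.V20.Stm

/-!
The form `η(w)² η(5w)²`, its primitive and their transformations.
-/

set_option autoImplicit false

open Filter Topology MeasureTheory Set

namespace Pool.Agent.W97.V20

open Pool.Agent.W97.TW
open Pool.Agent.W97.MT (qq qq_ne norm_qq norm_qq_lt tt tt_ne tt_pow eta_mul eta_one Q_ne Q_ne_pow iI
  iI_pos iI_eventually QV H_open const_of_deriv im_mul G_mul line_im line_re tendsto_qq eta_diff
  Qd_diff hasDerivAt_qq Qq_analytic)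

lemma gg_eq (w : ℂ) : gg w = G w * G (5 * w) := rfl

lemma gg_ne {w : ℂ} (hw : 0 < w.im) : gg w ≠ 0 := by
  have h5 := ModularForm.eta_ne_zero (im_mul hw 5 (by norm_num))
  push_cast at h5
  exact mul_ne_zero (pow_ne_zero _ (ModularForm.eta_ne_zero hw)) (pow_ne_zero _ h5)

lemma gg_diff {w : ℂ} (hw : 0 < w.im) : DifferentiableAt ℂ gg w := by
  have h1 := eta_diff hw 1 (by norm_num)
  have h5 := eta_diff hw 5 (by norm_num)
  push_cast at h1 h5
  simp only [one_mul] at h1
  exact (h1.pow 2).mul (h5.pow 2)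

/-- the transformations under `Γ_0(5)` -/
lemma G5_gamma {a b c d : ℤ} (h : a * d - b * (5 * c) = 1) {w : ℂ} (hw : 0 < w.im) :
    0 < ((a * w + b) / (5 * c * w + d) : ℂ).im ∧ (5 * c * w + d : ℂ) ≠ 0 ∧
    G ((a * w + b) / (5 * c * w + d)) = ze ^ (kap a b (5 * c) d) * (5 * c * w + d) * G w ∧
    G (5 * ((a * w + b) / (5 * c * w + d))) =
      ze ^ (kap a (5 * b) c d) * (5 * c * w + d) * G (5 * w) := by
  have h0 := im_moebius h hw
  have e1 := G_moebius h hw
  have e5 := G_moebius (a := a) (b := 5 * b) (c := c) (d := d) (by linarith)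
    (im_mul hw 5 (by norm_num))
  push_cast at h0 e1 e5
  refine ⟨h0.1, h0.2, e1, ?_⟩
  have e : (5 : ℂ) * ((a * w + b) / (5 * c * w + d)) =
      (a * (5 * w) + 5 * b) / (c * (5 * w) + d) := by
    rw [← mul_div_assoc]; congr 1 <;> ring
  rw [e, e5]; ring

lemma gg_gamma {a b c d : ℤ} (h : a * d - b * (5 * c) = 1) {w : ℂ} (hw : 0 < w.im) :
    gg ((a * w + b) / (5 * c * w + d)) =
      ze ^ (kap a b (5 * c) d + kap a (5 * b) c d) * (5 * c * w + d) ^ 2 * gg w := by
  obtain ⟨-, -, e1, e5⟩ := G5_gamma h hw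
  rw [gg_eq, gg_eq, e1, e5, zpow_add₀ ze_ne]
  ring

lemma ze_six : ze ^ (6 : ℤ) = -1 := by
  rw [show (6 : ℤ) = 3 + 3 by norm_num, zpow_add₀ ze_ne, ze_3]
  exact Complex.I_mul_I

lemma ze_neg_one {m : ℤ} (h : (12 : ℤ) ∣ m - 6) : ze ^ m = -1 := by
  rw [ze_congr h, ze_six]

/-- a transformation multiplying the differential `gg(w) dw` by `ε` -/
structure Mv (a b c d : ℤ) (ε : ℂ) : Prop where
  det : 0 < a * d - b * c
  eps : ε = 1 ∨ ε = -1
  gg' : ∀ w : ℂ, 0 < w.im → gg ((a * w + b) / (c * w + d)) *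
    ((a * d - b * c : ℤ) / (c * w + d) ^ 2) = ε * gg w

lemma mv_im {a b c d : ℤ} (h : 0 < a * d - b * c) {w : ℂ} (hw : 0 < w.im) :
    (c * w + d : ℂ) ≠ 0 ∧ 0 < ((a * w + b) / (c * w + d) : ℂ).im := by
  have h0 : (c * w + d : ℂ) ≠ 0 := by
    intro h1
    have h2 := congrArg Complex.im h1
    simp only [Complex.add_im, Complex.mul_im, Complex.intCast_re, Complex.intCast_im, zero_mul,
      add_zero, Complex.zero_im] at h2
    have hc : (c : ℝ) = 0 := by
      rcases mul_eq_zero.1 h2 with h3 | h3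
      · exact h3
      · exact absurd h3 hw.ne'
    have hc' : c = 0 := by exact_mod_cast hc
    rw [hc'] at h1 h
    have hd : (d : ℂ) = 0 := by simpa using h1
    have hd' : d = 0 := by exact_mod_cast hd
    rw [hd'] at h
    simp at h
  refine ⟨h0, ?_⟩
  have h1 : ((a * w + b) / (c * w + d) : ℂ).im = (a * d - b * c : ℤ) * w.im /
      Complex.normSq (c * w + d) := by
    rw [Complex.div_im]
    simp only [Complex.add_im, Complex.mul_im, Complex.intCast_re, Complex.intCast_im, zero_mul,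
      add_zero, Complex.add_re, Complex.mul_re, sub_zero]
    push_cast
    ring
  rw [h1]
  have h2 : (0 : ℝ) < (a * d - b * c : ℤ) := by exact_mod_cast h
  exact div_pos (mul_pos h2 hw) (Complex.normSq_pos.2 h0)

/-- the expansion of `gg` -/
noncomputable def phi2 (q : ℂ) : ℂ := Q (q ^ 2) ^ 2 * Q (q ^ 10) ^ 2

lemma gg_q (w : ℂ) : gg w = qq (w / 2) * phi2 (qq (w / 2)) := by
  have h2 := eta_mul 2 (w / 2)
  have h10 := eta_mul 10 (w / 2)
  push_cast at h2 h10
  have e2 : 2 * (w / 2) = w := by ring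
  have e10 : 10 * (w / 2) = 5 * w := by ring
  rw [e2] at h2
  rw [e10] at h10
  unfold gg phi2
  rw [h2, h10, ← tt_pow]
  ring

lemma half_im {w : ℂ} (hw : 0 < w.im) : 0 < (w / 2).im := by
  have : (w / 2).im = w.im / 2 := by simp
  rw [this]; positivity

lemma phi2_diff : DifferentiableOn ℂ phi2 (Metric.ball 0 1) :=
  ((Qd_diff 2 (by norm_num)).pow 2).mul ((Qd_diff 10 (by norm_num)).pow 2)

lemma exists_Phi2 : ∃ Φ : ℂ → ℂ, Φ 0 = 0 ∧ ∀ q : ℂ, ‖q‖ < 1 → HasDerivAt Φ (phi2 q) q := by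
  obtain ⟨g, h0, hg⟩ := phi2_diff.isExactOn_ball.with_val_at 0 0
  exact ⟨g, h0, fun q hq => hg q (by simpa using hq)⟩

/-- the primitive of `phi2` -/
noncomputable def Phi2 : ℂ → ℂ := exists_Phi2.choose

lemma Phi2_zero : Phi2 0 = 0 := exists_Phi2.choose_spec.1

lemma Phi2_deriv {q : ℂ} (hq : ‖q‖ < 1) : HasDerivAt Phi2 (phi2 q) q :=
  exists_Phi2.choose_spec.2 q hq

/-- the primitive of `πi gg` -/
noncomputable def F (w : ℂ) : ℂ := Phi2 (qq (w / 2))

lemma F_deriv {w : ℂ} (hw : 0 < w.im) : HasDerivAt F (Real.pi * Complex.I * gg w) w := by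
  have h1 : HasDerivAt (fun w : ℂ => w / 2) (1 / 2) w := (hasDerivAt_id w).div_const 2
  refine ((Phi2_deriv (norm_qq_lt (half_im hw))).comp w
    ((hasDerivAt_qq (w / 2)).comp w h1)).congr_deriv ?_
  rw [gg_q]; ring

lemma tendsto_half : Tendsto (fun w : ℂ => w / 2) iI iI := by
  have h : Tendsto (fun w : ℂ => w / 2) iI (comap Complex.im atTop) := by
    rw [tendsto_comap_iff]
    have e : Complex.im ∘ (fun w : ℂ => w / 2) = fun w => w.im * (1 / 2) := by
      ext w; simp; ring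
    rw [e]
    exact (tendsto_comap (f := Complex.im) (x := atTop)).atTop_mul_const (by norm_num)
  exact h

lemma F_tendsto : Tendsto F iI (𝓝 0) := by
  have h1 : Tendsto Phi2 (𝓝 0) (𝓝 (Phi2 0)) :=
    (Phi2_deriv (q := 0) (by simp)).continuousAt.tendsto
  rw [Phi2_zero] at h1
  exact h1.comp (tendsto_qq.comp tendsto_half)

lemma Mv.exists_const {a b c d : ℤ} {ε : ℂ} (h : Mv a b c d ε) :
    ∃ L : ℂ, ∀ w : ℂ, 0 < w.im → F ((a * w + b) / (c * w + d)) = ε * F w + L := by
  obtain ⟨C, hC⟩ := const_of_deriv (g := fun w => F ((a * w + b) / (c * w + d)) - ε * F w)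
    fun w hw => by
      obtain ⟨h0, h1⟩ := mv_im h.det hw
      have h2 : HasDerivAt (fun w : ℂ => (a : ℂ) * w + b) a w := by
        simpa using ((hasDerivAt_id w).const_mul (a : ℂ)).add_const (b : ℂ)
      have h3 : HasDerivAt (fun w : ℂ => (c : ℂ) * w + d) c w := by
        simpa using ((hasDerivAt_id w).const_mul (c : ℂ)).add_const (d : ℂ)
      have h4 := ((F_deriv h1).comp w (h2.div h3 h0)).sub ((F_deriv hw).const_mul ε)
      refine h4.congr_deriv ?_
      have h5 := h.gg' w hw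
      have h6 : gg ((a * w + b) / (c * w + d)) * ((a * (c * w + d) - (a * w + b) * c) /
          (c * w + d) ^ 2) = ε * gg w := by
        rw [← h5]
        congr 2
        push_cast
        ring
      linear_combination (Real.pi * Complex.I) * h6
  exact ⟨C, fun w hw => by linear_combination hC w hw⟩

lemma frac_aux' (u v : ℂ) {N D : ℂ} (hD : D ≠ 0) : u * (N / D) + v = (u * N + v * D) / D := by
  field_simp

lemma mv_comp {a b c d a' b' c' d' : ℤ} {ε ε' : ℂ} (h : Mv a b c d ε) (h' : Mv a' b' c' d' ε') :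
    Mv (a * a' + b * c') (a * b' + b * d') (c * a' + d * c') (c * b' + d * d') (ε * ε') ∧
    ∀ w : ℂ, 0 < w.im →
      (((a * a' + b * c' : ℤ) : ℂ) * w + ((a * b' + b * d' : ℤ) : ℂ)) /
        (((c * a' + d * c' : ℤ) : ℂ) * w + ((c * b' + d * d' : ℤ) : ℂ)) =
      (a * ((a' * w + b') / (c' * w + d')) + b) / (c * ((a' * w + b') / (c' * w + d')) + d) := by
  have key : ∀ w : ℂ, 0 < w.im →
      (((a * a' + b * c' : ℤ) : ℂ) * w + ((a * b' + b * d' : ℤ) : ℂ)) /
        (((c * a' + d * c' : ℤ) : ℂ) * w + ((c * b' + d * d' : ℤ) : ℂ)) =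
      (a * ((a' * w + b') / (c' * w + d')) + b) / (c * ((a' * w + b') / (c' * w + d')) + d) := by
    intro w hw
    obtain ⟨h0, h1⟩ := mv_im h'.det hw
    obtain ⟨h2, h3⟩ := mv_im h.det h1
    have e1 : (a : ℂ) * ((a' * w + b') / (c' * w + d')) + b =
        (a * (a' * w + b') + b * (c' * w + d')) / (c' * w + d') := frac_aux' _ _ h0
    have e2 : (c : ℂ) * ((a' * w + b') / (c' * w + d')) + d =
        (c * (a' * w + b') + d * (c' * w + d')) / (c' * w + d') := frac_aux' _ _ h0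
    rw [e1, e2, div_div_div_cancel_right₀ h0]
    push_cast
    congr 1 <;> ring
  refine ⟨⟨?_, ?_, ?_⟩, key⟩
  · have e : (a * a' + b * c') * (c * b' + d * d') - (a * b' + b * d') * (c * a' + d * c') =
        (a * d - b * c) * (a' * d' - b' * c') := by ring
    rw [e]
    exact mul_pos h.det h'.det
  · rcases h.eps with e | e <;> rcases h'.eps with e' | e' <;> rw [e, e'] <;> norm_num
  · intro w hw
    obtain ⟨h0, h1⟩ := mv_im h'.det hw
    obtain ⟨h2, h3⟩ := mv_im h.det h1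
    have e1 := h.gg' _ h1
    have e2 := h'.gg' w hw
    have h5 : (((c * a' + d * c' : ℤ) : ℂ) * w + ((c * b' + d * d' : ℤ) : ℂ)) =
        (c * ((a' * w + b') / (c' * w + d')) + d) * (c' * w + d') := by
      rw [frac_aux' _ _ h0, div_mul_cancel₀ _ h0]
      push_cast
      ring
    have h6 : (((a * a' + b * c') * (c * b' + d * d') - (a * b' + b * d') * (c * a' + d * c') : ℤ) :
        ℂ) = ((a * d - b * c : ℤ) : ℂ) * ((a' * d' - b' * c' : ℤ) : ℂ) := by
      push_cast
      ring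
    have h7 : gg ((a * ((a' * w + b') / (c' * w + d')) + b) /
        (c * ((a' * w + b') / (c' * w + d')) + d)) *
        (((a * d - b * c : ℤ) : ℂ) * ((a' * d' - b' * c' : ℤ) : ℂ) /
          ((c * ((a' * w + b') / (c' * w + d')) + d) * (c' * w + d')) ^ 2) =
        (gg ((a * ((a' * w + b') / (c' * w + d')) + b) /
        (c * ((a' * w + b') / (c' * w + d')) + d)) * (((a * d - b * c : ℤ) : ℂ) /
          (c * ((a' * w + b') / (c' * w + d')) + d) ^ 2)) *
          (((a' * d' - b' * c' : ℤ) : ℂ) / (c' * w + d') ^ 2) := by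
      rw [mul_pow, mul_assoc, div_mul_div_comm]
    rw [key w hw, h6, h5, h7, e1, mul_assoc, e2, mul_assoc]

lemma mv_of {a b c d : ℤ} (h : a * d - b * (5 * c) = 1)
    (hk : (12 : ℤ) ∣ kap a b (5 * c) d + kap a (5 * b) c d - 6) : Mv a b (5 * c) d (-1) where
  det := by rw [h]; norm_num
  eps := Or.inr rfl
  gg' := fun w hw => by
    have h1 := gg_gamma h hw
    have h0 := (G5_gamma h hw).2.1
    rw [h]
    push_cast
    rw [h1, ze_neg_one hk]
    field_simp

lemma mv_T : Mv 1 1 0 1 (-1) := mv_of (c := 0) (by norm_num) (by norm_num [kap])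
lemma mv_Ti : Mv 1 (-1) 0 1 (-1) := mv_of (c := 0) (by norm_num) (by norm_num [kap])
lemma mv_e1 : Mv 2 (-1) 5 (-2) (-1) := mv_of (c := 1) (by norm_num) (by norm_num [kap])
lemma mv_e2 : Mv (-2) (-1) 5 2 (-1) := mv_of (c := 1) (by norm_num) (by norm_num [kap])
lemma mv_U : Mv 1 0 (-5) 1 (-1) := mv_of (c := -1) (by norm_num) (by norm_num [kap])
lemma mv_Ui : Mv 1 0 5 1 (-1) := mv_of (c := 1) (by norm_num) (by norm_num [kap])

lemma mv_W : Mv 0 (-1) 5 0 (-1) where
  det := by norm_num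
  eps := Or.inr rfl
  gg' := fun w hw => by
    have hw0 : w ≠ 0 := fun h => by simp [h] at hw
    have e1 : G (-1 / (5 * w)) = -Complex.I * (5 * w) * G (5 * w) :=
      G_S (im_mul hw 5 (by norm_num))
    have e2 : G (-1 / w) = -Complex.I * w * G w := G_S hw
    have h1 : gg (-1 / (5 * w)) = -(5 * w ^ 2) * gg w := by
      rw [gg_eq, gg_eq, show (5 : ℂ) * (-1 / (5 * w)) = -1 / w by field_simp, e1, e2]
      linear_combination (5 * w ^ 2 * G w * G (5 * w)) * Complex.I_mul_I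
    have h2 : (((0 : ℤ) : ℂ) * w + ((-1 : ℤ) : ℂ)) / (((5 : ℤ) : ℂ) * w + ((0 : ℤ) : ℂ)) =
        -1 / (5 * w) := by push_cast; congr 1 <;> ring
    rw [h2, h1]
    push_cast
    field_simp
    ring

end Pool.Agent.W97.V20
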