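import Pool.Agent.W97.V20.Exp5
import Pool.Agent.W97.V20.Gg
import Pool.Agent.W97.MT.Lat

/-!
The parametrisation of the curve by functions on `X_0(5)`.
-/

set_option autoImplicit false

open Filter Topology

namespace Pool.Agent.W97.V20

open Pool.Agent.W97.TW
open Pool.Agent.W97.MT (S_QEXP Rep RepC Tr Q_ne Q_ne_pow num qq qq_ne norm_qq norm_qq_lt tt tt_ne
  tt_pow eta_mul eta_one iI iI_pos iI_eventually QV H_open im_mul G_mul tendsto_qq hasDerivAt_qq
  Qq_analytic QV_zero_of_dvd G_ne z_ne)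

/-- `(η(w)/η(5w))^6` -/
noncomputable def tf (w : ℂ) : ℂ := (G w / G (5 * w)) ^ 3

lemma G5_ne {w : ℂ} (hw : 0 < w.im) : G w ≠ 0 ∧ G (5 * w) ≠ 0 := by
  refine ⟨G_ne hw, ?_⟩
  have := G_ne (im_mul hw 5 (by norm_num))
  push_cast at this
  exact this

lemma tf_ne {w : ℂ} (hw : 0 < w.im) : tf w ≠ 0 :=
  pow_ne_zero _ (div_ne_zero (G5_ne hw).1 (G5_ne hw).2)

lemma kap5_4 : ∀ a b c d : ZMod 4, a * d - b * (5 * c) = 1 →
    (kap a b (5 * c) d - kap a (5 * b) c d = 0) ∧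
    (2 * (kap a b (5 * c) d + kap a (5 * b) c d) = 0) := by
  decide

lemma kap5_3 : ∀ a b c d : ZMod 3, a * d - b * (5 * c) = 1 →
    2 * (kap a b (5 * c) d + kap a (5 * b) c d) = 0 := by
  decide

lemma phases5 {a b c d : ℤ} (h : a * d - b * (5 * c) = 1) :
    (12 : ℤ) ∣ 3 * (kap a b (5 * c) d - kap a (5 * b) c d) ∧
    (12 : ℤ) ∣ 2 * (kap a b (5 * c) d + kap a (5 * b) c d) := by
  have h3 := kap5_3 a b c d (by exact_mod_cast congrArg (Int.cast : ℤ → ZMod 3) h)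
  have h4 := kap5_4 a b c d (by exact_mod_cast congrArg (Int.cast : ℤ → ZMod 4) h)
  constructor
  · have h5 : ((kap a b (5 * c) d - kap a (5 * b) c d : ℤ) : ZMod 4) = 0 := by
      push_cast [cast_kap]
      exact h4.1
    have h6 := (ZMod.intCast_zmod_eq_zero_iff_dvd _ 4).1 h5
    omega
  · refine dvd12 ?_ ?_ <;> push_cast [cast_kap]
    · exact h3
    · exact h4.2

lemma ze_dvd {m : ℤ} (h : (12 : ℤ) ∣ m) : ze ^ m = 1 := by
  rw [ze_congr (n := 0) (by simpa using h), zpow_zero]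

lemma tf_gamma {a b c d : ℤ} (h : a * d - b * (5 * c) = 1) {w : ℂ} (hw : 0 < w.im) :
    tf ((a * w + b) / (5 * c * w + d)) = tf w := by
  obtain ⟨-, h0, e1, e5⟩ := G5_gamma h hw
  obtain ⟨n1, n5⟩ := G5_ne hw
  unfold tf
  rw [e1, e5]
  have h1 : ze ^ (kap a b (5 * c) d) * (5 * c * w + d) * G w /
      (ze ^ (kap a (5 * b) c d) * (5 * c * w + d) * G (5 * w)) =
      ze ^ (kap a b (5 * c) d - kap a (5 * b) c d) * (G w / G (5 * w)) := by
    rw [zpow_sub₀ ze_ne]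
    have := zpow_ne_zero (kap a (5 * b) c d) ze_ne
    field_simp
  rw [h1, mul_pow, ← zpow_natCast (ze ^ _) 3, ← zpow_mul]
  have h2 := ze_dvd (phases5 h).1
  rw [mul_comm] at h2
  push_cast
  rw [h2, one_mul]

lemma gg_sq_gamma {a b c d : ℤ} (h : a * d - b * (5 * c) = 1) {w : ℂ} (hw : 0 < w.im) :
    gg ((a * w + b) / (5 * c * w + d)) ^ 2 = (5 * c * w + d) ^ 4 * gg w ^ 2 := by
  rw [gg_gamma h hw, mul_pow, mul_pow, ← zpow_natCast (ze ^ _) 2, ← zpow_mul]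
  have h2 := ze_dvd (phases5 h).2
  rw [mul_comm] at h2
  push_cast
  rw [h2, one_mul]
  ring

/-- invariance under `Γ_0(5)` -/
def Inv5 (g : ℂ → ℂ) : Prop := ∀ a b c d : ℤ, a * d - b * (5 * c) = 1 → ∀ z : ℂ, 0 < z.im →
  g ((a * z + b) / (5 * c * z + d)) = g z

theorem cp_zero5 (hcp : S_CP5) {g : ℂ → ℂ} (hd : ∀ z : ℂ, 0 < z.im → DifferentiableAt ℂ g z)
    (hinv : Inv5 g) (h1 : QV g 0) {v : ℂ} (h5 : QV (fun z => g (-1 / (5 * z))) v) :
    ∀ z : ℂ, 0 < z.im → g z = 0 := by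
  obtain ⟨c, hc⟩ := hcp g (fun z hz => (hd z hz).differentiableWithinAt) hinv h1.bounded'
    h5.bounded
  have h3 : QV g c := (QV.const c).of_eq (iI_pos.mono fun z hz => hc z hz)
  have h4 := h3.val_unique h1
  intro z hz
  rw [hc z hz, h4]

lemma tf_diff {w : ℂ} (hw : 0 < w.im) : DifferentiableAt ℂ tf w := by
  have h1 := Pool.Agent.W97.MT.eta_diff hw 1 (by norm_num)
  have h5 := Pool.Agent.W97.MT.eta_diff hw 5 (by norm_num)
  push_cast at h1 h5
  simp only [one_mul] at h1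
  exact (((h1.pow 2).div (h5.pow 2) (G5_ne hw).2).pow 3)

lemma QQ_ne {w : ℂ} (hw : 0 < w.im) : Q (qq w) ≠ 0 ∧ Q (qq w ^ 5) ≠ 0 :=
  ⟨Q_ne (norm_qq_lt hw), Q_ne_pow (norm_qq_lt hw) (by norm_num)⟩

lemma tf_q {w : ℂ} (hw : 0 < w.im) : qq w * tf w = kk (qq w) ^ 2 := by
  have g1 := G_mul 1 w
  have g5 := G_mul 5 w
  push_cast at g1 g5
  rw [one_mul, pow_one] at g1
  obtain ⟨n1, n5⟩ := QQ_ne hw
  have ht := tt_ne w
  unfold tf kk
  rw [g1, g5, ← tt_pow]
  field_simp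

lemma gg_sq_q (w : ℂ) : gg w ^ 2 = qq w * g5 (qq w) ^ 2 := by
  have h1 := eta_one w
  have h5 := eta_mul 5 w
  push_cast at h5
  unfold gg g5
  rw [h1, h5, ← tt_pow]
  ring

lemma W_pos {w : ℂ} (hw : 0 < w.im) : 0 < (-1 / (5 * w) : ℂ).im := by
  have h := (mv_im (a := 0) (b := -1) (c := 5) (d := 0) (by norm_num) hw).2
  convert h using 2
  push_cast
  congr 1 <;> ring

lemma gg_W {w : ℂ} (hw : 0 < w.im) : gg (-1 / (5 * w)) = -(5 * w ^ 2) * gg w := by
  have hw0 : w ≠ 0 := z_ne hw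
  have e1 : G (-1 / (5 * w)) = -Complex.I * (5 * w) * G (5 * w) :=
    G_S (im_mul hw 5 (by norm_num))
  have e2 : G (-1 / w) = -Complex.I * w * G w := G_S hw
  rw [gg_eq, gg_eq, show (5 : ℂ) * (-1 / (5 * w)) = -1 / w by field_simp, e1, e2]
  linear_combination (5 * w ^ 2 * G w * G (5 * w)) * Complex.I_mul_I

lemma tf_W {w : ℂ} (hw : 0 < w.im) : tf (-1 / (5 * w)) = 125 / tf w := by
  have hw0 : w ≠ 0 := z_ne hw
  obtain ⟨n1, n5⟩ := G5_ne hw
  have e1 : G (-1 / (5 * w)) = -Complex.I * (5 * w) * G (5 * w) :=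
    G_S (im_mul hw 5 (by norm_num))
  have e2 : G (-1 / w) = -Complex.I * w * G w := G_S hw
  have hI := Complex.I_ne_zero
  unfold tf
  rw [show (5 : ℂ) * (-1 / (5 * w)) = -1 / w by field_simp, e1, e2]
  field_simp
  norm_num

/-- `dt / (2πi gg dw)` -/
noncomputable def R5 (w : ℂ) : ℂ := deriv tf w / (2 * Real.pi * Complex.I * gg w)

lemma tpi_ne : (2 * Real.pi * Complex.I : ℂ) ≠ 0 := Complex.two_pi_I_ne_zero

lemma R5_diff {w : ℂ} (hw : 0 < w.im) : DifferentiableAt ℂ R5 w := by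
  have h1 : DifferentiableOn ℂ tf {z : ℂ | 0 < z.im} := fun w hw =>
    (tf_diff hw).differentiableWithinAt
  have h2 := (h1.deriv H_open).differentiableAt (H_open.mem_nhds hw)
  exact h2.div ((gg_diff hw).const_mul _) (mul_ne_zero tpi_ne (gg_ne hw))

lemma hasDerivAt_gamma5 {a b c d : ℤ} (h : a * d - b * (5 * c) = 1) {z : ℂ} (hz : 0 < z.im) :
    HasDerivAt (fun z : ℂ => (a * z + b) / (5 * c * z + d)) (((5 * c * z + d) ^ 2)⁻¹) z := by
  have h0 := (G5_gamma h hz).2.1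
  have h1 : HasDerivAt (fun w : ℂ => (a : ℂ) * w + b) a z := by
    simpa using ((hasDerivAt_id z).const_mul (a : ℂ)).add_const (b : ℂ)
  have h2 : HasDerivAt (fun w : ℂ => 5 * (c : ℂ) * w + d) (5 * c) z := by
    simpa using ((hasDerivAt_id z).const_mul (5 * (c : ℂ))).add_const (d : ℂ)
  refine (h1.div h2 h0).congr_deriv ?_
  have h3 : (a : ℂ) * d - b * (5 * c) = 1 := by exact_mod_cast h
  field_simp
  linear_combination h3

lemma deriv_tf_gamma {a b c d : ℤ} (h : a * d - b * (5 * c) = 1) {z : ℂ} (hz : 0 < z.im) :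
    deriv tf ((a * z + b) / (5 * c * z + d)) = (5 * c * z + d) ^ 2 * deriv tf z := by
  have h0 := (G5_gamma h hz).2.1
  have hm := (G5_gamma h hz).1
  have h1 := (tf_diff hm).hasDerivAt.comp z (hasDerivAt_gamma5 h hz)
  have h2 : tf ∘ (fun z : ℂ => (a * z + b) / (5 * c * z + d)) =ᶠ[𝓝 z] tf := by
    filter_upwards [H_open.mem_nhds hz] with w hw
    exact tf_gamma h hw
  have h3 := (h1.congr_of_eventuallyEq h2.symm).deriv
  rw [h3, mul_comm (deriv tf _), ← mul_assoc, mul_inv_cancel₀ (pow_ne_zero 2 h0), one_mul]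

lemma deriv_tf_W {z : ℂ} (hz : 0 < z.im) :
    deriv tf (-1 / (5 * z)) * (1 / (5 * z ^ 2)) = -125 * deriv tf z / tf z ^ 2 := by
  have hz0 : z ≠ 0 := z_ne hz
  have h5 : (5 * z : ℂ) ≠ 0 := mul_ne_zero (by norm_num) hz0
  have h6 : HasDerivAt (fun z : ℂ => -1 / (5 * z)) (1 / (5 * z ^ 2)) z := by
    have h7 : HasDerivAt (fun z : ℂ => 5 * z) 5 z := by
      simpa using (hasDerivAt_id z).const_mul (5 : ℂ)
    refine ((hasDerivAt_const z (-1 : ℂ)).div h7 h5).congr_deriv ?_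
    field_simp
    norm_num
  have h1 := (tf_diff (W_pos hz)).hasDerivAt.comp z h6
  have h2 : tf ∘ (fun z : ℂ => -1 / (5 * z)) =ᶠ[𝓝 z] fun z => 125 / tf z := by
    filter_upwards [H_open.mem_nhds hz] with w hw
    exact tf_W hw
  have h3 := (hasDerivAt_const z (125 : ℂ)).div (tf_diff hz).hasDerivAt (tf_ne hz)
  have h4 := (h1.congr_of_eventuallyEq h2.symm).unique h3
  rw [h4]
  ring

lemma R5_W {z : ℂ} (hz : 0 < z.im) : R5 (-1 / (5 * z)) = 125 * R5 z / tf z ^ 2 := by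
  have hz0 : z ≠ 0 := z_ne hz
  have h1 := deriv_tf_W hz
  have h2 : deriv tf (-1 / (5 * z)) = -625 * z ^ 2 * deriv tf z / tf z ^ 2 := by
    have h3 := tf_ne hz
    field_simp at h1 ⊢
    linear_combination h1
  unfold R5
  rw [h2, gg_W hz]
  have h3 := tf_ne hz
  have h4 := gg_ne hz
  have h5 := tpi_ne
  have hI := Complex.I_ne_zero
  have hpi : (Real.pi : ℂ) ≠ 0 := by exact_mod_cast Real.pi_ne_zero
  field_simp
  ring

/-- the function comparing `R5²` with the cubic -/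
noncomputable def c5 (w : ℂ) : ℂ := R5 w ^ 2 - (tf w ^ 3 + 22 * tf w ^ 2 + 125 * tf w)

lemma c5_diff {w : ℂ} (hw : 0 < w.im) : DifferentiableAt ℂ c5 w := by
  have h1 := tf_diff hw
  have h2 := R5_diff hw
  unfold c5
  fun_prop

lemma c5_inv : Inv5 c5 := by
  intro a b c d h z hz
  have h0 := (G5_gamma h hz).2.1
  have hg := gg_ne hz
  unfold c5 R5
  rw [tf_gamma h hz, deriv_tf_gamma h hz, div_pow, mul_pow _ (gg _), gg_sq_gamma h hz]
  congr 1
  field_simp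

lemma kk_zero : kk 0 = 1 := by
  unfold kk
  simp [Q_zero]

lemma g5_zero : g5 0 = 1 := by
  unfold g5
  simp [Q_zero]

/-- `R5` in terms of `q` -/
lemma R5_q {K : PowerSeries ℤ} (hK : Rep kk K) {w : ℂ} (hw : 0 < w.im) :
    qq w * (gg w * R5 w) = qq w * deriv (fun q => kk q ^ 2) (qq w) - kk (qq w) ^ 2 := by
  have hx : DifferentiableAt ℂ (fun q => kk q ^ 2) (qq w) :=
    (RepC.differentiableOn (hK.pow 2)).differentiableAt (Metric.isOpen_ball.mem_nhds
      (by simpa using norm_qq_lt hw))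
  have hq := qq_ne w
  have h1 := (hx.hasDerivAt.comp w (hasDerivAt_qq w)).div (hasDerivAt_qq w) hq
  have h2 : tf =ᶠ[𝓝 w] ((fun q => kk q ^ 2) ∘ qq) / qq := by
    filter_upwards [H_open.mem_nhds hw] with v hv
    have := tf_q hv
    simp only [Pi.div_apply, Function.comp_apply]
    rw [← this, mul_div_cancel_left₀ _ (qq_ne v)]
  have h3 := (h1.congr_of_eventuallyEq h2).deriv
  have hg := gg_ne hw
  have hI : (Complex.I : ℂ) ≠ 0 := Complex.I_ne_zero
  have hpi : (Real.pi : ℂ) ≠ 0 := by exact_mod_cast Real.pi_ne_zero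
  unfold R5
  rw [h3]
  simp only [Function.comp_apply]
  field_simp

lemma QV_kk : QV (fun z => kk (qq z)) 1 := by
  have h1 : AnalyticAt ℂ kk 0 := by
    have e1 := Qq_analytic 1 one_ne_zero
    have e5 := Qq_analytic 5 (by norm_num)
    simp only [pow_one] at e1
    exact (e1.pow 3).mul ((e5.pow 3).inv (by simp [Q_zero]))
  exact (QV.comp h1).of_val kk_zero

lemma QV_g5 : QV (fun z => g5 (qq z)) 1 := by
  have h1 : AnalyticAt ℂ g5 0 := by
    have e1 := Qq_analytic 1 one_ne_zero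
    have e5 := Qq_analytic 5 (by norm_num)
    simp only [pow_one] at e1
    exact (e1.pow 2).mul (e5.pow 2)
  exact (QV.comp h1).of_val g5_zero

lemma g5_ne {w : ℂ} (hw : 0 < w.im) : g5 (qq w) ≠ 0 := by
  obtain ⟨n1, n5⟩ := QQ_ne hw
  exact mul_ne_zero (pow_ne_zero _ n1) (pow_ne_zero _ n5)

lemma kk_ne {w : ℂ} (hw : 0 < w.im) : kk (qq w) ≠ 0 := by
  obtain ⟨n1, n5⟩ := QQ_ne hw
  exact mul_ne_zero (pow_ne_zero _ n1) (inv_ne_zero (pow_ne_zero _ n5))

theorem c5_zero (hcp : S_CP5) (hq : S_QEXP) : ∀ w : ℂ, 0 < w.im → c5 w = 0 := by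
  obtain ⟨K, P, rK, rP, tK, tP⟩ := expansions5 hq
  have hid := identity_five tK tP
  rw [num 22, num 125] at hid
  have rT := rK.pow 2
  have hrep := ((rT.theta.sub rT).pow 2).sub ((rP.pow 2).mul
    (((rT.pow 3).add ((Rep.C 22).mul (Rep.X.mul (rT.pow 2)))).add
    ((Rep.C 125).mul ((Rep.X.pow 2).mul rT))))
  have h0 : QV (fun z => g5 (qq z) ^ 2 * c5 z) 0 := by
    refine QV_zero_of_dvd (m := 3) hrep (dvd_trans (pow_dvd_pow _ (by norm_num)) hid) ?_
    intro z hz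
    unfold c5
    push_cast
    rw [← R5_q rK hz, ← tf_q hz]
    have h1 := gg_sq_q z
    linear_combination (-(qq z ^ 2 * R5 z ^ 2)) * h1
  have h1 : QV c5 0 := by
    refine ((((QV_g5.pow 2).inv (by norm_num)).mul h0).of_eq (iI_pos.mono fun z hz => ?_)).of_val
      (by simp)
    have := g5_ne hz
    field_simp
  obtain ⟨h, hh, -, -⟩ : ∃ h : ℂ → ℂ, AnalyticAt ℂ h 0 ∧ True ∧ True :=
    ⟨deriv (fun q => kk q ^ 2), (RepC.analyticAt_zero rT).deriv, trivial, trivial⟩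
  have h2 : QV (fun z => c5 (-1 / (5 * z))) 0 := by
    have hD : AnalyticAt ℂ (deriv (fun q => kk q ^ 2)) 0 := (RepC.analyticAt_zero rT).deriv
    have q1 := ((QV.qq'.mul (QV.comp hD)).sub (QV_kk.pow 2)).pow 2
    have q2 := ((QV.const 15625).mul (QV.qq'.mul q1)).mul
      (((QV_g5.pow 2).mul (QV_kk.pow 8)).inv (by norm_num))
    have qt := QV.qq'.mul ((QV_kk.pow 2).inv (by norm_num))
    have q3 := q2.sub ((((QV.const (125 ^ 3)).mul (qt.pow 3)).add
      ((QV.const (22 * 125 ^ 2)).mul (qt.pow 2))).add ((QV.const (125 ^ 2)).mul qt))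
    refine (q3.of_eq (iI_pos.mono fun z hz => ?_)).of_val (by simp)
    unfold c5
    rw [R5_W hz, tf_W hz]
    have e1 := R5_q rK hz
    have e2 := tf_q hz
    have e3 := gg_sq_q z
    have n1 := g5_ne hz
    have n2 := kk_ne hz
    have n3 := qq_ne z
    have n4 := tf_ne hz
    have et : tf z = kk (qq z) ^ 2 / qq z := by
      rw [← e2, mul_div_cancel_left₀ _ n3]
    have e4 : R5 z ^ 2 = (qq z * deriv (fun q => kk q ^ 2) (qq z) - kk (qq z) ^ 2) ^ 2 /
        (qq z ^ 3 * g5 (qq z) ^ 2) := by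
      rw [← e1, eq_div_iff (mul_ne_zero (pow_ne_zero _ n3) (pow_ne_zero _ n1))]
      linear_combination (-(qq z ^ 2 * R5 z ^ 2)) * e3
    have e5 : (125 * R5 z / tf z ^ 2) ^ 2 = 15625 * R5 z ^ 2 / tf z ^ 4 := by
      rw [div_pow]; congr 1 <;> ring
    rw [e5, e4, et]
    field_simp
  exact cp_zero5 hcp (fun z hz => c5_diff hz) c5_inv h1 h2

/-- the formal identities -/
theorem formal5 (hcp : S_CP5) (hq : S_QEXP) {K P : PowerSeries ℤ} (rK : Rep kk K)
    (rP : Rep g5 P) :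
    (PowerSeries.X * PowerSeries.derivative ℤ (K ^ 2) - K ^ 2) ^ 2 = P ^ 2 * ((K ^ 2) ^ 3 +
      22 * (PowerSeries.X * (K ^ 2) ^ 2) + 125 * (PowerSeries.X ^ 2 * K ^ 2)) := by
  have rT := rK.pow 2
  rw [num 22, num 125]
  refine ((rT.theta.sub rT).pow 2).unique (((rP.pow 2).mul
    (((rT.pow 3).add ((Rep.C 22).mul (Rep.X.mul (rT.pow 2)))).add
    ((Rep.C 125).mul ((Rep.X.pow 2).mul rT)))).congr fun q hq1 => ?_)
  push_cast
  by_cases h0 : q = 0
  · rw [h0]; simp [kk_zero, g5_zero]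
  · obtain ⟨z, hz, rfl⟩ := Pool.Agent.W97.MT.exists_qq hq1 h0
    have h1 := c5_zero hcp hq z hz
    have e3 := gg_sq_q z
    unfold c5 at h1
    rw [← R5_q rK hz, ← tf_q hz]
    linear_combination (qq z ^ 2 * R5 z ^ 2) * e3 + (qq z ^ 3 * g5 (qq z) ^ 2) * h1

end Pool.Agent.W97.V20
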